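import Pool.Agent.H856.DW.Loc
import Pool.Agent.H425.CoreA
import Pool.Agent.H425.CoreB

set_option autoImplicit false
set_option linter.unusedSectionVars false
set_option linter.unusedVariables false

/-!
# From the truncated rings to the cyclotomic field
-/

namespace Pool.Agent.H856.DW

open Pool.Agent.H425 Polynomial

/-- the coefficients of the Taylor expansion at one of `∑ c r (q X) ^ (n - r)` -/
def Tk {A : Type} [CommRing A] (c : ℕ → A) (n : ℕ) (q : A) (k : ℕ) : A :=
  ∑ r ∈ Finset.range (n + 1), c r * q ^ (n - r) * ((n - r).choose k : ℕ)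

/-- the polynomial `∑ c r X ^ (n - r)` -/
noncomputable def PP {A : Type} [CommRing A] (c : ℕ → A) (n : ℕ) : A[X] :=
  ∑ r ∈ Finset.range (n + 1), C (c r) * X ^ (n - r)

theorem taylor_PP {A : Type} [CommRing A] (c : ℕ → A) (n : ℕ) (q : A) (k : ℕ) :
    (((PP c n).comp (C q * X)).comp (X + C 1)).coeff k = Tk c n q k := by
  rw [PP, Polynomial.sum_comp, Polynomial.sum_comp, finsetSum_coeff, Tk]
  refine Finset.sum_congr rfl fun r _ => ?_
  rw [mul_comp, mul_comp, C_comp, C_comp, pow_comp, pow_comp, X_comp, mul_comp, C_comp, X_comp,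
    C_1, mul_pow, ← C_pow, coeff_C_mul, coeff_C_mul, coeff_X_add_one_pow]
  ring

variable {I : Type} [Fintype I] [DecidableEq I]

theorem cs_eq {A : Type} [CommRing A] (M : Matrix I I A) : cs M = M.charpoly.reverse := by
  rw [Matrix.reverse_charpoly]
  rfl

theorem cs_high {A : Type} [CommRing A] [Nontrivial A] (M : Matrix I I A) (r : ℕ)
    (hr : Fintype.card I < r) : (cs M).coeff r = 0 := by
  rw [cs_eq, coeff_eq_zero_of_natDegree_lt]
  refine lt_of_le_of_lt (reverse_natDegree_le _) ?_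
  rwa [Matrix.charpoly_natDegree_eq_dim]

theorem charpoly_PP {A : Type} [CommRing A] [Nontrivial A] (M : Matrix I I A) :
    M.charpoly = PP (fun r => (cs M).coeff r) (Fintype.card I) := by
  ext j
  rw [PP, finsetSum_coeff]
  simp only [coeff_C_mul, coeff_X_pow]
  by_cases hj : j ≤ Fintype.card I
  · rw [Finset.sum_eq_single (Fintype.card I - j)]
    · rw [if_pos (by omega), mul_one, cs_eq, coeff_reverse, Matrix.charpoly_natDegree_eq_dim,
        revAt_le (by omega)]
      congr 1
      omega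
    · intro r hr hne
      rw [Finset.mem_range] at hr
      rw [if_neg (by omega), mul_zero]
    · intro h
      exact absurd (Finset.mem_range.2 (by omega)) h
  · rw [coeff_eq_zero_of_natDegree_lt (by rw [Matrix.charpoly_natDegree_eq_dim]; omega)]
    symm
    refine Finset.sum_eq_zero fun r _ => ?_
    rw [if_neg (by omega), mul_zero]

/-- the first nonzero Taylor coefficient -/
theorem taylor_ne {K : Type} [Field K] (P : K[X]) (hP : P ≠ 0) (u : K) (hu : u ≠ 0) (r : ℕ) :
    ((C u * X ^ r * P).comp (X + C 1)).coeff (P.rootMultiplicity 1) ≠ 0 := by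
  have h0 : C u * X ^ r * P ≠ 0 :=
    mul_ne_zero (mul_ne_zero (C_ne_zero.2 hu) (pow_ne_zero _ X_ne_zero)) hP
  have h1 : (C u * X ^ r * P).rootMultiplicity 1 = P.rootMultiplicity 1 := by
    rw [rootMultiplicity_mul h0]
    have h2 : (C u * X ^ r : K[X]).rootMultiplicity 1 = 0 := by
      apply rootMultiplicity_eq_zero
      rw [IsRoot, eval_mul, eval_C, eval_pow, eval_X, one_pow, mul_one]
      exact hu
    rw [h2, zero_add]
  rw [← h1, rootMultiplicity_eq_natTrailingDegree, ← trailingCoeff]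
  rw [Ne, trailingCoeff_eq_zero]
  intro h
  apply h0
  have h3 : (C u * X ^ r * P) = ((C u * X ^ r * P).comp (X + C 1)).comp (X - C 1) := by
    rw [comp_assoc, add_comp, X_comp, C_comp, sub_add_cancel, comp_X]
  rw [h3, h, zero_comp]

namespace S0

variable {p d : ℕ} [hp : Fact p.Prime] {K R : Type} [Field K] [CommRing R] [IsDomain R]
  {F : Type} [Field F] [Algebra ℚ F] [IsCyclotomicExtension {p} ℚ F]

theorem exists_pow_mul (S : Setup p d K R) [CharP K p] (n : ℕ) (hn : n ≠ 0) :
    ∃ (a : ℕ) (u : R), (n : R) = S.lam ^ a * u ∧ S.res u ≠ 0 := by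
  obtain ⟨a, b, hb, hab⟩ := Nat.exists_eq_pow_mul_and_not_dvd hn p hp.out.ne_one
  refine ⟨d * (p - 1) * a, (-1) ^ a * b, ?_, ?_⟩
  · rw [hab]
    push_cast
    have h1 : (p : R) = -1 * S.lam ^ (d * (p - 1)) := by rw [S.lam_pow]; ring
    rw [h1, mul_pow, ← pow_mul]
    ring
  · rw [map_mul, map_pow, map_neg, map_one, map_natCast]
    refine mul_ne_zero (pow_ne_zero _ (neg_ne_zero.2 one_ne_zero)) ?_
    intro h
    exact hb ((CharP.cast_eq_zero_iff K p b).1 h)

/-- **the transfer to the cyclotomic field** -/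
theorem trans (S : Setup p d K R) [CharP K p] [IsAlgClosed K] (hd : 2 ≤ d) (hpd : 2 * d + 3 < p)
    (hdp : d ∣ p - 1) (f : MvPolynomial (Fin 2) K) (hf : f.totalDegree = d)
    (hsm : ∀ x : Fin 2 → K, (∀ i, x i * MvPolynomial.eval x (MvPolynomial.pderiv i
      (MvPolynomial.homogeneousComponent d f)) = 0) → x = 0)
    (hdet : ∀ w, w < d → (hwm p d (lp d f) w).det ≠ 0) (m : ℕ)
    (hfm : ∀ s, MvPolynomial.coeff s f ^ (p ^ (m + 1)) = MvPolynomial.coeff s f)
    (ζ : F) (hζ : IsPrimitiveRoot ζ p) (c : ℕ → F) (hc0 : c 0 = 1)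
    (hc : ∀ r, ((r + 1 : ℕ) : F) * c (r + 1) =
      -∑ j ∈ Finset.range (r + 1), expSum p f ((m + 1) * (j + 1)) ζ * c (r - j)) :
    (∀ r, (d - 1) ^ 2 < r → c r = 0) ∧
    Tk c ((d - 1) ^ 2) ((p : F) ^ (m + 1))
      ((prodn (ct p (lp d f) (d - 1)) (m + 1)).charpoly.rootMultiplicity 1) ≠ 0 := by
  have hp5 : 5 ≤ p := by omega
  obtain ⟨b, hb⟩ := S.exists_BD hp5 hd f hf hsm
  have hch : CharZero F := charZero_of_injective_algebraMap (algebraMap ℚ F).injective
  have hcardI : Fintype.card (Fin 2 → Fin (d - 1)) = (d - 1) ^ 2 := by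
    rw [Fintype.card_pi]
    simp
  have hcom : ∀ N, 1 ≤ N → ∀ D : S.BD N f (d - 1) b, ∀ r, ∃ P : ℤ[X],
      aeval ζ P = (r.factorial : F) * c r ∧
      aeval (S.zet N) P = (r.factorial : S.Q N) * (cs (prodn (Setup.Bt D) (m + 1))).coeff r := by
    intro N hN D r
    refine exists_common (fun j => Epoly p f ((m + 1) * j)) (-1) ζ (S.zet N) c
      (fun r => (cs (prodn (Setup.Bt D) (m + 1))).coeff r) hc0 (cs_zero _) ?_ ?_ r
    · intro r
      simp only [aeval_Epoly]
      rw [hc r]
      push_cast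
      ring
    · intro r
      have h1 := Setup.rec_cs D (by rw [Fintype.card_fin]; omega) (m + 1) (by omega) hfm r
      rw [h1, Fintype.card_fin]
      norm_num
  constructor
  · -- the characteristic polynomial has degree `(d - 1) ^ 2`
    intro r hr
    by_contra hcr
    have hfr : (r.factorial : F) * c r ≠ 0 :=
      mul_ne_zero (Nat.cast_ne_zero.2 (Nat.factorial_ne_zero r)) hcr
    have hval : ∀ P : ℤ[X], aeval ζ P = (r.factorial : F) * c r → ∃ a : ℕ,
        padicValRat p (Algebra.norm ℚ ((r.factorial : F) * c r)) = a ∧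
        ∃ U W : ℤ[X], P = (X - 1) ^ a * U + (∑ i ∈ Finset.range p, X ^ i) * W ∧
        ¬ (p : ℤ) ∣ U.eval 1 := by
      intro P hP
      obtain ⟨a, ha, U, W, h1, h2⟩ := factor p (by omega) hζ
        (padicValRat p (Algebra.norm ℚ (aeval ζ P))).toNat P (by rw [hP]; exact hfr)
        (Int.self_le_toNat _)
      rw [hP] at ha
      exact ⟨a, ha, U, W, h1, h2⟩
    obtain ⟨P1, hP1, -⟩ := hcom 1 le_rfl (hb 1 le_rfl) r
    obtain ⟨v, hv, -⟩ := hval P1 hP1
    have hN1 : 1 ≤ d * v + 1 := by omega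
    set D := hb (d * v + 1) hN1 with hD
    obtain ⟨P, hP, hP2⟩ := hcom (d * v + 1) hN1 D r
    obtain ⟨a, ha, U, W, hUW, hU⟩ := hval P hP
    have hav : a = v := by
      rw [hv] at ha
      exact_mod_cast ha.symm
    obtain ⟨u, hu, hu2⟩ := S.eval_zet hp5 (by omega) (d * v + 1) hN1 P U W a hUW hU
    have hnt : Nontrivial (S.Q (d * v + 1)) := nontrivial_Q hN1
    rw [hP2, cs_high _ r (by rw [hcardI]; exact hr), mul_zero, hav] at hu2
    exact S.ord_ne_zero hu (Nat.lt_succ_self _) hu2.symm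
  · -- the multiplicity
    set μ := (prodn (ct p (lp d f) (d - 1)) (m + 1)).charpoly.rootMultiplicity 1 with hμ
    set n := (d - 1) ^ 2 with hn
    intro hzero
    obtain ⟨a, v, hv1, hv2⟩ := exists_pow_mul S n.factorial (Nat.factorial_ne_zero n)
    set N := a + Ex p d (d - 1) m + 1 with hN
    have hN1 : 1 ≤ N := by omega
    set D := hb N hN1 with hD
    have hnt : Nontrivial (S.Q N) := nontrivial_Q hN1
    obtain ⟨M, G, u, r, hu, h1, h2, h3⟩ := loc D hpd hdp m hdet
    choose P hP1 hP2 using hcom N hN1 D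
    have hfac : ∀ r ∈ Finset.range (n + 1), n.factorial = n.descFactorial (n - r) * r.factorial := by
      intro r hr
      rw [Finset.mem_range] at hr
      have := Nat.factorial_mul_descFactorial (n := n) (k := n - r) (by omega)
      rw [← this, mul_comm]
      congr 2
      omega
    let Q : ℤ[X] := ∑ r ∈ Finset.range (n + 1), C ((n.descFactorial (n - r) : ℕ) : ℤ) * P r *
      C (((p : ℤ) ^ (m + 1)) ^ (n - r)) * C (((n - r).choose μ : ℕ) : ℤ)
    have hQ1 : aeval ζ Q = (n.factorial : F) * Tk c n ((p : F) ^ (m + 1)) μ := by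
      rw [map_sum, Tk, Finset.mul_sum]
      refine Finset.sum_congr rfl fun r hr => ?_
      rw [map_mul, map_mul, map_mul, aeval_C, aeval_C, aeval_C, hP1, hfac r hr]
      simp only [eq_intCast]
      push_cast
      ring
    have hQ2 : aeval (S.zet N) Q = (n.factorial : S.Q N) *
        Tk (fun r => (cs (prodn (Setup.Bt D) (m + 1))).coeff r) n ((p : S.Q N) ^ (m + 1)) μ := by
      rw [map_sum, Tk, Finset.mul_sum]
      refine Finset.sum_congr rfl fun r hr => ?_
      rw [map_mul, map_mul, map_mul, aeval_C, aeval_C, aeval_C, hP2, hfac r hr]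
      simp only [eq_intCast]
      push_cast
      ring
    rw [hzero, mul_zero] at hQ1
    have hQ3 := zet_of_zeta hζ (S.zet N) (S.zet_cyclo hp5 (by omega) N) Q hQ1
    rw [hQ2, ← taylor_PP, ← hcardI, ← charpoly_PP, ← h1] at hQ3
    have h4 : (M.map (S.rd N)).charpoly = M.charpoly.map (S.rd N) := Matrix.charpoly_map M (S.rd N)
    have h5 : ((M.charpoly.map (S.rd N)).comp (C ((p : S.Q N) ^ (m + 1)) * X)).comp (X + C 1) =
        ((M.charpoly.comp (C ((p : R) ^ (m + 1)) * X)).comp (X + C 1)).map (S.rd N) := by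
      have e1 : S.rd N ((p : R) ^ (m + 1)) = (p : S.Q N) ^ (m + 1) := by
        rw [map_pow, map_natCast]
      have e2 : S.rd N (1 : R) = 1 := map_one _
      rw [Polynomial.map_comp, Polynomial.map_comp, Polynomial.map_mul, map_C, map_X,
        Polynomial.map_add, map_X, map_C, e1, e2]
    rw [h4, h5, coeff_map, h2, mul_comp, C_comp, coeff_C_mul] at hQ3
    have h6 : (Fintype.card (Fin 2 → Fin (d - 1))).factorial = n.factorial := by rw [hcardI]
    rw [h6, ← map_natCast (S.rd N), hv1, ← map_mul] at hQ3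
    have h7 : S.res ((G.comp (X + C 1)).coeff μ) ≠ 0 := by
      rw [← coeff_map, Polynomial.map_comp, Polynomial.map_add, map_X, map_C, map_one, h3]
      exact taylor_ne _ (Matrix.charpoly_monic _).ne_zero u hu r
    have h8 : S.lam ^ a * v * (S.lam ^ Ex p d (d - 1) m * (G.comp (X + C 1)).coeff μ) =
        S.lam ^ (a + Ex p d (d - 1) m) * (v * (G.comp (X + C 1)).coeff μ) := by
      rw [pow_add]; ring
    rw [h8] at hQ3
    refine S.ord_ne_zero ?_ (Nat.lt_succ_self _) hQ3
    rw [map_mul]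
    exact mul_ne_zero hv2 h7

end S0

end Pool.Agent.H856.DW
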