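import Pool.Agent.H856.DW.HW3
import Pool.Agent.H425.ESum

set_option autoImplicit false
set_option linter.unusedSectionVars false
set_option linter.unusedVariables false

/-!
# Points on Artin-Schreier coverings and exponential sums
-/

namespace Pool.Agent.H856.DW

open Pool.Agent.H425 MvPolynomial

variable {p : ℕ} [hp : Fact p.Prime]

/-- the points with coordinates in a finite extension, inside the algebraic closure -/
theorem card_transfer {k : Type} [Field k] {K : Type} [Field K] [CharP K p] [Algebra k K]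
    {ι : Type} (f : MvPolynomial ι k) (L : Type) [Field L] [Finite L] [Algebra k L]
    (a : ℕ) (hL : Nat.card L = p ^ a) (τ : L →ₐ[k] K) :
    Nat.card {P : (ι → L) × L // P.2 ^ p - P.2 = aeval P.1 f} =
      Nat.card {P : (ι → K) × K // (∀ i, P.1 i ^ (p ^ a) = P.1 i) ∧ P.2 ^ (p ^ a) = P.2 ∧
        P.2 ^ p - P.2 = eval P.1 (MvPolynomial.map (algebraMap k K) f)} := by
  have := Fintype.ofFinite L
  have hfix : ∀ y : L, (τ y) ^ (p ^ a) = τ y := by
    intro y
    rw [← map_pow, ← hL, Nat.card_eq_fintype_card, FiniteField.pow_card]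
  have heval : ∀ x : ι → L, eval (fun i => τ (x i)) (MvPolynomial.map (algebraMap k K) f) =
      τ (aeval x f) := by
    intro x
    rw [eval_map, ← aeval_def, comp_aeval_apply]
  have hsurj : ∀ y : K, y ^ (p ^ a) = y → ∃ z, τ z = y := by
    intro y hy
    exact mem_range_of_pow (τ : L →+* K) y (by rw [hL]; exact hy)
  refine Nat.card_congr (Equiv.ofBijective
    (fun P => ⟨(fun i => τ (P.1.1 i), τ P.1.2), fun i => hfix _, hfix _, ?_⟩) ⟨?_, ?_⟩)
  · change τ P.1.2 ^ p - τ P.1.2 = eval (fun i => τ (P.1.1 i)) (MvPolynomial.map (algebraMap k K) f)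
    rw [heval, ← P.2, map_sub, map_pow]
  · intro P Q h
    have h1 := congrArg Subtype.val h
    apply Subtype.ext
    refine Prod.ext ?_ ?_
    · funext i
      exact τ.injective (congrFun (congrArg Prod.fst h1) i)
    · exact τ.injective (congrArg Prod.snd h1)
  · rintro ⟨⟨x, z⟩, h1, h2, h3⟩
    choose y hy using fun i => hsurj (x i) (h1 i)
    obtain ⟨w, hw⟩ := hsurj z h2
    have hx : (fun i => τ (y i)) = x := funext hy
    refine ⟨⟨(y, w), ?_⟩, ?_⟩
    · apply τ.injective
      change τ (w ^ p - w) = τ (aeval y f)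
      rw [← heval, hx, map_sub, map_pow, hw]
      exact h3
    · apply Subtype.ext
      refine Prod.ext ?_ ?_
      · exact hx
      · exact hw

theorem telescope {K : Type} [Field K] [CharP K p] (z v : K) (h : z ^ p - z = v) (a : ℕ) :
    ∑ t ∈ Finset.range a, v ^ (p ^ t) = z ^ (p ^ a) - z := by
  induction a with
  | zero => rw [Finset.sum_range_zero, pow_zero, pow_one, sub_self]
  | succ a ih =>
    rw [Finset.sum_range_succ, ih, ← h, sub_pow_char_pow, ← pow_mul, ← pow_succ']
    ring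

/-- counting the points by the trace -/
theorem card_fibres {K : Type} [Field K] [CharP K p] [IsAlgClosed K] {ι : Type}
    (f : MvPolynomial ι K) (a : ℕ) :
    Nat.card {P : (ι → K) × K // (∀ i, P.1 i ^ (p ^ a) = P.1 i) ∧ P.2 ^ (p ^ a) = P.2 ∧
        P.2 ^ p - P.2 = eval P.1 f} =
      p * Nat.card {x : ι → K // (∀ i, x i ^ (p ^ a) = x i) ∧
        ∑ t ∈ Finset.range a, (eval x f) ^ (p ^ t) = 0} := by
  have hp1 := hp.out.one_lt
  have hroot : ∀ v : K, ∃ z : K, z ^ p - z = v := by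
    intro v
    obtain ⟨z, hz⟩ := IsAlgClosed.exists_root (Polynomial.X ^ p - Polynomial.X - Polynomial.C v) (by
      have h1 : (Polynomial.X ^ p - Polynomial.X - Polynomial.C v : Polynomial K).natDegree = p := by
        rw [Polynomial.natDegree_sub_C]
        exact FiniteField.X_pow_card_sub_X_natDegree_eq K hp1
      intro h
      have h2 : (Polynomial.X ^ p - Polynomial.X - Polynomial.C v : Polynomial K).natDegree = 0 :=
        Polynomial.natDegree_eq_of_degree_eq_some h
      rw [h1] at h2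
      omega)
    refine ⟨z, ?_⟩
    rw [Polynomial.IsRoot, Polynomial.eval_sub, Polynomial.eval_sub, Polynomial.eval_pow,
      Polynomial.eval_X, Polynomial.eval_C, sub_eq_zero] at hz
    exact hz
  choose rt hrt using hroot
  let φ : ZMod p →+* K := ZMod.castHom (dvd_refl p) K
  have hφ : ∀ c : ZMod p, (φ c) ^ p = φ c := by
    intro c
    rw [← map_pow, ZMod.pow_card]
  have hφa : ∀ c : ZMod p, ∀ a : ℕ, (φ c) ^ (p ^ a) = φ c := by
    intro c a
    rw [← map_pow, ZMod.pow_card_pow]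
  have hcard : Nat.card (ZMod p) = p := by
    rw [Nat.card_eq_fintype_card, ZMod.card]
  have hmul : p * Nat.card {x : ι → K // (∀ i, x i ^ (p ^ a) = x i) ∧
        ∑ t ∈ Finset.range a, (eval x f) ^ (p ^ t) = 0} =
      Nat.card ({x : ι → K // (∀ i, x i ^ (p ^ a) = x i) ∧
        ∑ t ∈ Finset.range a, (eval x f) ^ (p ^ t) = 0} × ZMod p) := by
    rw [Nat.card_prod, hcard, mul_comm]
  rw [hmul]
  symm
  refine Nat.card_congr (Equiv.ofBijective
    (fun Q => ⟨(Q.1.1, rt (eval Q.1.1 f) + φ Q.2), Q.1.2.1, ?_, ?_⟩) ⟨?_, ?_⟩)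
  · have h1 := telescope (rt (eval Q.1.1 f)) _ (hrt (eval Q.1.1 f)) a
    rw [Q.1.2.2] at h1
    have h2 : rt (eval Q.1.1 f) ^ (p ^ a) = rt (eval Q.1.1 f) := (sub_eq_zero.1 h1.symm)
    change (rt (eval Q.1.1 f) + φ Q.2) ^ (p ^ a) = rt (eval Q.1.1 f) + φ Q.2
    rw [add_pow_char_pow, h2, hφa]
  · change (rt (eval Q.1.1 f) + φ Q.2) ^ p - (rt (eval Q.1.1 f) + φ Q.2) = eval Q.1.1 f
    rw [add_pow_char, hφ]
    have := hrt (eval Q.1.1 f)
    linear_combination this
  · intro Q Q' h
    have h1 := congrArg Subtype.val h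
    have h2 : Q.1.1 = Q'.1.1 := congrArg Prod.fst h1
    have h3 : rt (eval Q.1.1 f) + φ Q.2 = rt (eval Q'.1.1 f) + φ Q'.2 := congrArg Prod.snd h1
    rw [h2, add_right_inj] at h3
    exact Prod.ext (Subtype.ext h2) (φ.injective h3)
  · rintro ⟨⟨x, z⟩, h1, h2, h3⟩
    have h4 : ∑ t ∈ Finset.range a, (eval x f) ^ (p ^ t) = 0 := by
      rw [telescope z _ h3 a]
      rw [sub_eq_zero]
      exact h2
    have h5 : (z - rt (eval x f)) ^ p = z - rt (eval x f) := by
      rw [sub_pow_char]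
      have e1 := hrt (eval x f)
      have e2 : z ^ p - z = eval x f := h3
      linear_combination e2 - e1
    obtain ⟨c, hc⟩ := mem_range_of_pow φ (z - rt (eval x f)) (by rw [hcard]; exact h5)
    refine ⟨(⟨x, h1, h4⟩, c), ?_⟩
    apply Subtype.ext
    refine Prod.ext rfl ?_
    change rt (eval x f) + φ c = z
    rw [hc]
    ring

theorem card_FQ {K : Type} [Field K] [CharP K p] [IsAlgClosed K] (a : ℕ) (ha : 1 ≤ a) :
    (FQ K (p ^ a)).card = p ^ a := by
  classical
  have hQ : 2 ≤ p ^ a := by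
    calc 2 ≤ p := hp.out.two_le
      _ = p ^ 1 := (pow_one p).symm
      _ ≤ p ^ a := Nat.pow_le_pow_right hp.out.pos ha
  have h1 : ((p ^ a - 1 : ℕ) : K) ≠ 0 := by
    rw [Nat.cast_sub (by omega)]
    push_cast
    rw [CharP.cast_eq_zero, zero_pow (by omega)]
    simp
  have : NeZero ((p ^ a - 1 : ℕ) : K) := ⟨h1⟩
  obtain ⟨ζ, hζ⟩ := HasEnoughRootsOfUnity.exists_primitiveRoot K (p ^ a - 1)
  rw [FQ, Finset.card_insert_of_notMem, hζ.card_nthRootsFinset]
  · omega
  · rw [Polynomial.mem_nthRootsFinset (by omega), zero_pow (by omega)]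
    exact zero_ne_one

/-- **points and exponential sums** -/
theorem points_expSum {K : Type} [Field K] [CharP K p] [IsAlgClosed K] (f : MvPolynomial (Fin 2) K)
    (a : ℕ) (ha : 1 ≤ a) (hf : ∀ s, coeff s f ^ (p ^ a) = coeff s f)
    {A : Type} [Field A] (ζ : A) (hζ : IsPrimitiveRoot ζ p) :
    ((p * Nat.card {x : Fin 2 → K // (∀ i, x i ^ (p ^ a) = x i) ∧
        ∑ t ∈ Finset.range a, (eval x f) ^ (p ^ t) = 0} : ℕ) : A) =
      ((p ^ a : ℕ) : A) ^ 2 + ∑ j ∈ Finset.Ico 1 p, expSum p f a (ζ ^ j) := by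
  have hp1 := hp.out.one_lt
  have h1 : expSum p f a (1 : A) = ((p ^ a : ℕ) : A) ^ 2 := by
    rw [expSum_eq p f a ha hf 1 (one_pow p) (fun _ => 1) (fun x _ c _ => (one_pow c).symm),
      Finset.sum_const, Fintype.card_piFinset_const, card_FQ a ha, nsmul_eq_mul, mul_one,
      Nat.cast_pow (p ^ a) 2]
  have h2 : ∑ j ∈ Finset.range p, expSum p f a (ζ ^ j) =
      expSum p f a (1 : A) + ∑ j ∈ Finset.Ico 1 p, expSum p f a (ζ ^ j) := by
    rw [Finset.range_eq_Ico, Finset.sum_eq_sum_Ico_succ_bot hp.out.pos, pow_zero]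
  rw [← h1, ← h2]
  unfold expSum
  rw [Finset.sum_comm]
  have h3 : ∀ a0 ∈ Finset.range p, ∑ j ∈ Finset.range p, (ζ ^ j) ^ a0 *
      ((Nat.card {x : Fin 2 → K // (∀ i, x i ^ (p ^ a) = x i) ∧
        ∑ t ∈ Finset.range a, (eval x f) ^ (p ^ t) = (a0 : K)} : ℕ) : A) =
      if a0 = 0 then ((p * Nat.card {x : Fin 2 → K // (∀ i, x i ^ (p ^ a) = x i) ∧
        ∑ t ∈ Finset.range a, (eval x f) ^ (p ^ t) = 0} : ℕ) : A) else 0 := by
    intro a0 ha0
    rw [Finset.mem_range] at ha0
    rw [← Finset.sum_mul]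
    split_ifs with h
    · subst h
      simp only [pow_zero, Finset.sum_const, Finset.card_range, nsmul_eq_mul, mul_one, Nat.cast_zero]
      push_cast
      rfl
    · have h4 : ∑ j ∈ Finset.range p, (ζ ^ j) ^ a0 = 0 := by
        have hprim : IsPrimitiveRoot (ζ ^ a0) p := by
          refine hζ.pow_of_coprime a0 ?_
          exact (Nat.coprime_of_lt_prime h ha0 hp.out).symm
        have h5 := hprim.geom_sum_eq_zero hp1
        rw [← h5]
        refine Finset.sum_congr rfl fun j _ => ?_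
        rw [← pow_mul, ← pow_mul, mul_comm]
      rw [h4, zero_mul]
  rw [Finset.sum_congr rfl h3, Finset.sum_ite_eq', if_pos (Finset.mem_range.2 hp.out.pos)]

theorem map_expSum {K : Type} [Field K] {ι : Type} {A B : Type} [CommRing A] [CommRing B]
    (σ : A →+* B) (f : MvPolynomial ι K) (a : ℕ) (z : A) :
    σ (expSum p f a z) = expSum p f a (σ z) := by
  rw [expSum, expSum, map_sum]
  refine Finset.sum_congr rfl fun j _ => ?_
  rw [map_mul, map_pow, map_natCast]

end Pool.Agent.H856.DW
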