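import Pool.Agent.H856.DW.Trans

set_option autoImplicit false
set_option linter.unusedSectionVars false
set_option linter.unusedVariables false

/-!
# Power sums of the roots
-/

namespace Pool.Agent.H856.DW

open Pool.Agent.H425 Polynomial

/-- the solution of the recursion -/
noncomputable def cseq {A : Type} [Field A] (S : ℕ → A) : ℕ → A
  | 0 => 1
  | r + 1 => -((r + 1 : ℕ) : A)⁻¹ * ∑ j : Fin (r + 1), S (j + 1) * cseq S (r - j)
decreasing_by omega

theorem cseq_zero {A : Type} [Field A] (S : ℕ → A) : cseq S 0 = 1 := by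
  rw [cseq]

theorem cseq_succ {A : Type} [Field A] [CharZero A] (S : ℕ → A) (r : ℕ) :
    ((r + 1 : ℕ) : A) * cseq S (r + 1) =
      -∑ j ∈ Finset.range (r + 1), S (j + 1) * cseq S (r - j) := by
  have h : ((r + 1 : ℕ) : A) ≠ 0 := Nat.cast_ne_zero.2 (Nat.succ_ne_zero r)
  rw [cseq, ← mul_assoc, mul_neg, mul_inv_cancel₀ h, neg_one_mul,
    Fin.sum_univ_eq_sum_range (fun j => S (j + 1) * cseq S (r - j))]

/-- multisets with the same power sums -/
theorem count_eq_of_powerSums {L : Type} [Field L] [CharZero L] [DecidableEq L] (A B : Multiset L)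
    (h : ∀ s : ℕ, 1 ≤ s → (A.map (fun x => x ^ s)).sum = (B.map (fun x => x ^ s)).sum)
    (x : L) (hx : x ≠ 0) : A.count x = B.count x := by
  classical
  have hP : ∀ P : L[X], (A.map (fun y => (X * P).eval y)).sum = (B.map (fun y => (X * P).eval y)).sum := by
    intro P
    induction P using Polynomial.induction_on' with
    | add P Q hP hQ =>
      simp only [mul_add, eval_add, Multiset.sum_map_add]
      rw [hP, hQ]
    | monomial n a =>
      have h1 : ∀ y : L, (X * monomial n a : L[X]).eval y = a * y ^ (n + 1) := by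
        intro y
        rw [eval_mul, eval_X, eval_monomial, pow_succ]
        ring
      simp only [h1, Multiset.sum_map_mul_left]
      rw [h (n + 1) (by omega)]
  set Z : Finset L := (A + B).toFinset.erase x with hZ
  set P : L[X] := ∏ y ∈ Z, (X - C y) with hPdef
  have hval : ∀ y ∈ A + B, (X * P).eval y = if y = x then (X * P).eval x else 0 := by
    intro y hy
    split_ifs with hyx
    · rw [hyx]
    · rw [eval_mul, hPdef, eval_prod, Finset.prod_eq_zero (i := y), mul_zero]
      · rw [hZ, Finset.mem_erase]
        exact ⟨hyx, Multiset.mem_toFinset.2 hy⟩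
      · rw [eval_sub, eval_X, eval_C, sub_self]
  have hx0 : (X * P).eval x ≠ 0 := by
    rw [eval_mul, eval_X, hPdef, eval_prod]
    refine mul_ne_zero hx (Finset.prod_ne_zero_iff.2 fun y hy => ?_)
    rw [eval_sub, eval_X, eval_C, sub_ne_zero]
    exact (Finset.ne_of_mem_erase hy).symm
  have hsum : ∀ T : Multiset L, (∀ y ∈ T, y ∈ A + B) →
      (T.map (fun y => (X * P).eval y)).sum = (T.count x : L) * (X * P).eval x := by
    intro T hT
    have h1 : T.map (fun y => (X * P).eval y) =
        T.map (fun y => if y = x then (X * P).eval x else 0) :=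
      Multiset.map_congr rfl fun y hy => hval y (hT y hy)
    rw [h1]
    clear h1 hT
    induction T using Multiset.induction_on with
    | empty => simp
    | cons a s ih =>
      rw [Multiset.map_cons, Multiset.sum_cons, ih, Multiset.count_cons]
      by_cases h2 : a = x
      · rw [if_pos h2, if_pos h2.symm]
        push_cast
        ring
      · rw [if_neg h2, if_neg (fun h => h2 h.symm)]
        push_cast
        ring
  have h1 := hP P
  rw [hsum A (fun y hy => Multiset.mem_add.2 (Or.inl hy)),
    hsum B (fun y hy => Multiset.mem_add.2 (Or.inr hy))] at h1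
  exact_mod_cast mul_right_cancel₀ hx0 h1

theorem PP_coeff {A : Type} [CommRing A] (c : ℕ → A) (n r : ℕ) (hr : r ≤ n) :
    (PP c n).coeff (n - r) = c r := by
  rw [PP, finsetSum_coeff, Finset.sum_eq_single r]
  · rw [coeff_C_mul, coeff_X_pow, if_pos rfl, mul_one]
  · intro b hb hne
    rw [Finset.mem_range] at hb
    rw [coeff_C_mul, coeff_X_pow, if_neg (by omega), mul_zero]
  · intro h
    exact absurd (Finset.mem_range.2 (by omega)) h

theorem PP_monic {A : Type} [CommRing A] [Nontrivial A] (c : ℕ → A) (n : ℕ) (hc : c 0 = 1) :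
    (PP c n).Monic ∧ (PP c n).natDegree = n := by
  have h1 : (PP c n).natDegree ≤ n := by
    rw [PP]
    refine natDegree_sum_le_of_forall_le _ _ fun r _ => ?_
    refine (natDegree_C_mul_X_pow_le _ _).trans (Nat.sub_le _ _)
  have h2 : (PP c n).coeff n = 1 := by
    have := PP_coeff c n 0 (Nat.zero_le n)
    rwa [Nat.sub_zero, hc] at this
  have h3 : (PP c n).natDegree = n := by
    refine le_antisymm h1 (le_natDegree_of_ne_zero ?_)
    rw [h2]
    exact one_ne_zero
  exact ⟨by rw [Monic, leadingCoeff, h3, h2], h3⟩

/-- the power sums of the roots -/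
theorem roots_powerSum {L : Type} [Field L] [CharZero L] [IsAlgClosed L] (S c : ℕ → L) (n : ℕ)
    (hc0 : c 0 = 1) (hc : ∀ r, ((r + 1 : ℕ) : L) * c (r + 1) =
      -∑ j ∈ Finset.range (r + 1), S (j + 1) * c (r - j)) (hn : ∀ r, n < r → c r = 0) (s : ℕ) :
    ((PP c n).roots.map (fun x => x ^ (s + 1))).sum = S (s + 1) := by
  classical
  obtain ⟨hm, hdeg⟩ := PP_monic c n hc0
  have hcard : (PP c n).roots.card = n := by
    exact (IsAlgClosed.splits (PP c n)).natDegree_eq_card_roots.symm.trans hdeg
  set l := (PP c n).roots.toList with hl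
  have hlen : l.length = n := by rw [hl, Multiset.length_toList, hcard]
  have hroots : (PP c n).roots = Multiset.map (fun i : Fin l.length => l.get i) Finset.univ.val := by
    have h1 : (PP c n).roots = (l : Multiset L) := (Multiset.coe_toList _).symm
    have h2 : Multiset.map (fun i : Fin l.length => l.get i) Finset.univ.val =
        (List.map l.get (List.finRange l.length) : Multiset L) := rfl
    rw [h2, List.map_get_finRange, ← h1]
  set M : Matrix (Fin l.length) (Fin l.length) L := Matrix.diagonal (fun i => l.get i) with hM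
  have hchar : M.charpoly = PP c n := by
    rw [hM, Matrix.charpoly_diagonal]
    have h1 := (IsAlgClosed.splits (PP c n)).eq_prod_roots_of_monic hm
    conv_rhs => rw [h1, hroots, Multiset.map_map]
    rfl
  have hcs : ∀ r, (cs M).coeff r = c r := by
    intro r
    by_cases hr : r ≤ n
    · have hcardM : Fintype.card (Fin l.length) = n := by rw [Fintype.card_fin, hlen]
      have h1 := charpoly_PP M
      rw [hchar, hcardM] at h1
      have h2 := congrArg (fun P => P.coeff (n - r)) h1
      beta_reduce at h2
      rw [PP_coeff _ n r hr, PP_coeff _ n r hr] at h2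
      exact h2.symm
    · rw [hn r (by omega), cs_high M r (by rw [Fintype.card_fin, hlen]; omega)]
  have htr : ∀ j, (M ^ (j + 1)).trace = ((PP c n).roots.map (fun x => x ^ (j + 1))).sum := by
    intro j
    rw [hM, Matrix.diagonal_pow, Matrix.trace_diagonal, hroots, Multiset.map_map]
    rfl
  induction s using Nat.strong_induction_on with
  | _ s ih =>
    have h1 := newton M s
    have h2 := hc s
    simp only [hcs] at h1
    rw [h1, neg_inj, Finset.sum_range_succ, Finset.sum_range_succ, Nat.sub_self, hc0, mul_one,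
      mul_one] at h2
    have h3 : ∑ j ∈ Finset.range s, (M ^ (j + 1)).trace * c (s - j) =
        ∑ j ∈ Finset.range s, S (j + 1) * c (s - j) := by
      refine Finset.sum_congr rfl fun j hj => ?_
      rw [htr, ih j (Finset.mem_range.1 hj)]
    rw [h3, add_right_inj, htr] at h2
    exact h2

/-- the multiplicity of a root -/
theorem count_le_of_Tk {L : Type} [Field L] [DecidableEq L] (c : ℕ → L) (n : ℕ) (hc0 : c 0 = 1)
    (q : L) (μ : ℕ) (h : Tk c n q μ ≠ 0) : (PP c n).roots.count q ≤ μ := by
  have hP : PP c n ≠ 0 := (PP_monic c n hc0).1.ne_zero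
  rw [count_roots]
  by_contra hlt
  push Not at hlt
  apply h
  obtain ⟨Q, hQ⟩ := (le_rootMultiplicity_iff hP).1 (Nat.succ_le_of_lt hlt)
  rw [← taylor_PP, hQ, mul_comp, mul_comp, pow_comp, pow_comp, sub_comp, sub_comp, X_comp, C_comp,
    mul_comp, C_comp, X_comp]
  have h1 : (C q * (X + C 1) - C q : L[X]) = C q * X := by
    rw [C_1]; ring
  rw [h1, mul_pow, mul_comm (C q ^ _), mul_assoc, coeff_X_pow_mul', if_neg (by omega)]

end Pool.Agent.H856.DW
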