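import Pool.Agent.H425.Psi

set_option autoImplicit false
set_option linter.unusedSectionVars false
set_option linter.unusedVariables false

/-!
# Determinants of block cyclic matrices
-/

namespace Pool.Agent.H856.DW

open Pool.Agent.H425 Polynomial

variable {A : Type} [CommRing A] {I : Type} [Fintype I] [DecidableEq I]

/-- the block cyclic matrix with the diagonal `δ` and the blocks `-B t` -/
def cyc (m : ℕ) (δ : ℕ → I → A) (B : ℕ → Matrix I I A) :
    Matrix (Fin (m + 1) × I) (Fin (m + 1) × I) A :=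
  fun x y => (if x = y then δ x.1 x.2 else 0) - (if y.1 + 1 = x.1 then B y.1 x.2 y.2 else 0)

/-- splitting off the first block -/
def spl (m : ℕ) (I : Type) : I ⊕ (Fin m × I) ≃ Fin (m + 1) × I where
  toFun := Sum.elim (fun i => (0, i)) (fun x => (x.1.succ, x.2))
  invFun := fun x => Fin.cases (Sum.inl x.2) (fun t => Sum.inr (t, x.2)) x.1
  left_inv := by
    rintro (i | ⟨t, i⟩)
    · rfl
    · rfl
  right_inv := by
    rintro ⟨t, i⟩
    refine Fin.cases ?_ (fun t => ?_) t
    · rfl
    · rfl

theorem spl_inl (m : ℕ) (i : I) : spl m I (Sum.inl i) = (0, i) := rfl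

theorem spl_inr (m : ℕ) (x : Fin m × I) : spl m I (Sum.inr x) = (x.1.succ, x.2) := rfl

/-- the remaining products -/
def pd (m : ℕ) (δ : ℕ → A) (t : ℕ) : A := ∏ s ∈ Finset.Ico (t + 1) (m + 1), δ s

theorem pd_step (m : ℕ) (δ : ℕ → A) (t : ℕ) (ht : t < m) :
    pd m δ t = δ (t + 1) * pd m δ (t + 1) := by
  rw [pd, pd, Finset.prod_eq_prod_Ico_succ_bot (by omega)]

theorem pd_last (m : ℕ) (δ : ℕ → A) : pd m δ m = 1 := by
  rw [pd, Finset.Ico_self, Finset.prod_empty]

theorem pd_zero (m : ℕ) (δ : ℕ → A) : pd m δ 0 = ∏ t : Fin m, δ (t + 1) := by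
  rw [pd, Finset.prod_Ico_eq_prod_range, Fin.prod_univ_eq_prod_range (fun t => δ (t + 1))]
  refine Finset.prod_congr rfl fun t _ => ?_
  rw [zero_add, add_comm]

/-- the auxiliary matrix -/
noncomputable def auxN (m : ℕ) (δ : ℕ → A) (B : ℕ → Matrix I I A) :
    Matrix (Fin (m + 1) × I) (Fin (m + 1) × I) A :=
  fun x y => if y.1 = 0 then prodn B x.1 x.2 y.2 * pd m δ x.1 else if x = y then 1 else 0

/-- a block of the auxiliary matrix -/
noncomputable def blkN (m : ℕ) (δ : ℕ → A) (B : ℕ → Matrix I I A) : Matrix (Fin m × I) I A :=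
  fun x j => prodn B (x.1 + 1) x.2 j * pd m δ (x.1 + 1)

/-- a block of the cyclic matrix -/
noncomputable def blkM (m : ℕ) (δ : ℕ → A) (B : ℕ → Matrix I I A) : Matrix I (Fin m × I) A :=
  fun i y => (cyc m (fun t _ => δ t) B) (0, i) (y.1.succ, y.2)

theorem auxN_blocks (m : ℕ) (δ : ℕ → A) (B : ℕ → Matrix I I A) :
    (auxN m δ B).submatrix (spl m I) (spl m I) = Matrix.fromBlocks
      (pd m δ 0 • (1 : Matrix I I A)) 0 (blkN m δ B) 1 := by
  ext x y
  rcases x with i | x <;> rcases y with j | y
  · rw [Matrix.submatrix_apply, spl_inl, spl_inl, Matrix.fromBlocks_apply₁₁, auxN, if_pos rfl]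
    simp only [Fin.val_zero, prodn, Matrix.smul_apply, smul_eq_mul]
    ring
  · rw [Matrix.submatrix_apply, spl_inl, spl_inr, Matrix.fromBlocks_apply₁₂, auxN,
      if_neg (Fin.succ_ne_zero _), if_neg]
    · rfl
    · intro h
      exact Fin.succ_ne_zero _ (congrArg Prod.fst h).symm
  · rw [Matrix.submatrix_apply, spl_inl, spl_inr, Matrix.fromBlocks_apply₂₁, auxN, if_pos rfl,
      blkN]
    simp only [Fin.val_succ]
  · rw [Matrix.submatrix_apply, spl_inr, spl_inr, Matrix.fromBlocks_apply₂₂, auxN,
      if_neg (Fin.succ_ne_zero _), Matrix.one_apply]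
    have h : ((x.1.succ, x.2) = (y.1.succ, y.2)) ↔ x = y := by
      rw [Prod.ext_iff, Prod.ext_iff]
      simp
    simp only [h]

theorem auxN_det (m : ℕ) (δ : ℕ → A) (B : ℕ → Matrix I I A) :
    (auxN m δ B).det = pd m δ 0 ^ Fintype.card I := by
  rw [← Matrix.det_submatrix_equiv_self (spl m I), auxN_blocks, Matrix.det_fromBlocks_zero₁₂,
    Matrix.det_one, mul_one, Matrix.det_smul, Matrix.det_one, mul_one]

theorem cyc_mul_entry (m : ℕ) (δ : ℕ → A) (B : ℕ → Matrix I I A)
    (N : Matrix (Fin (m + 1) × I) (Fin (m + 1) × I) A) (x y : Fin (m + 1) × I) :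
    (cyc m (fun t _ => δ t) B * N) x y = δ x.1 * N x y -
      ∑ z : I, B (x.1 - 1 : Fin (m + 1)) x.2 z * N (x.1 - 1, z) y := by
  rw [Matrix.mul_apply]
  simp only [cyc, sub_mul]
  rw [Finset.sum_sub_distrib]
  congr 1
  · rw [Finset.sum_eq_single x]
    · rw [if_pos rfl]
    · intro z _ hz
      rw [if_neg (Ne.symm hz), zero_mul]
    · intro h
      exact absurd (Finset.mem_univ x) h
  · rw [Fintype.sum_prod_type, Finset.sum_eq_single (x.1 - 1)]
    · refine Finset.sum_congr rfl fun z _ => ?_
      rw [if_pos (sub_add_cancel _ _)]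
    · intro t _ ht
      refine Finset.sum_eq_zero fun z _ => ?_
      rw [if_neg, zero_mul]
      intro h
      exact ht (eq_sub_of_add_eq h)
    · intro h
      exact absurd (Finset.mem_univ _) h

/-- the lower right block -/
def lowT (m : ℕ) (δ : ℕ → A) (B : ℕ → Matrix I I A) : Matrix (Fin m × I) (Fin m × I) A :=
  fun x y => (if x = y then δ (x.1 + 1) else 0) -
    (if (y.1 : ℕ) + 1 = x.1 then B (y.1 + 1) x.2 y.2 else 0)

theorem lowT_det (m : ℕ) (δ : ℕ → A) (B : ℕ → Matrix I I A) :
    (lowT m δ B).det = pd m δ 0 ^ Fintype.card I := by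
  have h : (lowT m δ B).BlockTriangular (fun x => OrderDual.toDual x.1) := by
    intro x y hxy
    have h1 : x.1 < y.1 := hxy
    rw [lowT, if_neg, if_neg, sub_zero]
    · intro h2
      have : (x.1 : ℕ) < y.1 := h1
      omega
    · rintro rfl
      exact lt_irrefl _ h1
  rw [h.det_fintype, pd_zero, ← Finset.prod_pow]
  refine Fintype.prod_equiv OrderDual.ofDual _ _ fun k => ?_
  have h1 : (lowT m δ B).toSquareBlock (fun x => OrderDual.toDual x.1) k =
      δ ((OrderDual.ofDual k : Fin m) + 1) •
        (1 : Matrix {x : Fin m × I // OrderDual.toDual x.1 = k} {x : Fin m × I // OrderDual.toDual x.1 = k} A) := by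
    ext x y
    rw [Matrix.toSquareBlock_def, Matrix.of_apply, lowT, Matrix.smul_apply, Matrix.one_apply,
      smul_eq_mul]
    have hx : x.1.1 = OrderDual.ofDual k := x.2
    have hy : y.1.1 = OrderDual.ofDual k := y.2
    have hne : ¬ ((y.1.1 : ℕ) + 1 = x.1.1) := by
      rw [hx, hy]
      omega
    rw [if_neg hne, sub_zero]
    by_cases hxy : x = y
    · rw [if_pos (by rw [hxy]), if_pos hxy, mul_one, hx]
    · rw [if_neg (fun h => hxy (Subtype.ext h)), if_neg hxy, mul_zero]
  rw [h1, Matrix.det_smul, Matrix.det_one, mul_one]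
  congr 1
  refine Fintype.card_congr ?_
  exact
    { toFun := fun x => x.1.2
      invFun := fun i => ⟨(OrderDual.ofDual k, i), rfl⟩
      left_inv := by
        rintro ⟨⟨t, i⟩, h⟩
        have : t = OrderDual.ofDual k := h
        subst this
        rfl
      right_inv := fun i => rfl }

theorem cyc_aux (m : ℕ) (δ : ℕ → A) (B : ℕ → Matrix I I A) :
    (cyc m (fun t _ => δ t) B * auxN m δ B).submatrix (spl m I) (spl m I) = Matrix.fromBlocks
      ((δ 0 * pd m δ 0) • (1 : Matrix I I A) - prodn B (m + 1))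
      (blkM m δ B) 0 (lowT m δ B) := by
  ext x y
  rcases x with i | x <;> rcases y with j | y
  · rw [Matrix.submatrix_apply, spl_inl, spl_inl, Matrix.fromBlocks_apply₁₁, cyc_mul_entry]
    have h0 : (0 - 1 : Fin (m + 1)) = Fin.last m := by
      rw [sub_eq_iff_eq_add]
      exact (Fin.last_add_one m).symm
    rw [Matrix.sub_apply, Matrix.smul_apply, smul_eq_mul]
    simp only [h0, auxN, if_pos, Fin.val_last, pd_last, mul_one]
    congr 1
    simp only [Fin.val_zero, prodn]
    ring
  · rw [Matrix.submatrix_apply, spl_inl, spl_inr, Matrix.fromBlocks_apply₁₂, cyc_mul_entry]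
    rw [auxN, if_neg (Fin.succ_ne_zero _)]
    rw [blkM, cyc]
    congr 1
    · rw [mul_ite, mul_one, mul_zero]
    · by_cases hy : y.1.succ + 1 = (0 : Fin (m + 1))
      · have h1 : (0 - 1 : Fin (m + 1)) = y.1.succ := by rw [← hy, add_sub_cancel_right]
        rw [if_pos hy, Finset.sum_eq_single y.2]
        · simp only [h1, auxN, if_neg (Fin.succ_ne_zero _), if_true, mul_one]
        · intro z _ hz
          simp only [h1, auxN, if_neg (Fin.succ_ne_zero _)]
          rw [if_neg, mul_zero]
          intro h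
          exact hz (congrArg Prod.snd h)
        · intro h
          exact absurd (Finset.mem_univ _) h
      · rw [if_neg hy]
        refine Finset.sum_eq_zero fun z _ => ?_
        rw [auxN, if_neg (Fin.succ_ne_zero _), if_neg, mul_zero]
        intro h
        apply hy
        have h1 : (0 - 1 : Fin (m + 1)) = y.1.succ := congrArg Prod.fst h
        rw [← h1, sub_add_cancel]
  · rw [Matrix.submatrix_apply, spl_inl, spl_inr, Matrix.fromBlocks_apply₂₁, cyc_mul_entry]
    have h0 : (x.1.succ - 1 : Fin (m + 1)) = x.1.castSucc := by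
      rw [sub_eq_iff_eq_add]
      exact (Fin.coeSucc_eq_succ).symm
    simp only [h0, auxN, if_true, Fin.val_succ, Fin.val_castSucc]
    have h1 : ∑ z : I, B x.1 x.2 z * (prodn B x.1 z j * pd m δ x.1) =
        prodn B (x.1 + 1) x.2 j * pd m δ x.1 := by
      rw [prodn, Matrix.mul_apply, Finset.sum_mul]
      refine Finset.sum_congr rfl fun z _ => ?_
      ring
    rw [h1, pd_step m δ x.1 x.1.2, Matrix.zero_apply]
    ring
  · rw [Matrix.submatrix_apply, spl_inr, spl_inr, Matrix.fromBlocks_apply₂₂, cyc_mul_entry]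
    have h0 : (x.1.succ - 1 : Fin (m + 1)) = x.1.castSucc := by
      rw [sub_eq_iff_eq_add]
      exact (Fin.coeSucc_eq_succ).symm
    rw [auxN, if_neg (Fin.succ_ne_zero _), lowT]
    congr 1
    · rw [mul_ite, mul_one, mul_zero]
      have h : ((x.1.succ, x.2) = (y.1.succ, y.2)) ↔ x = y := by
        rw [Prod.ext_iff, Prod.ext_iff]
        simp
      simp only [h, Fin.val_succ]
    · simp only [h0]
      by_cases hy : (y.1 : ℕ) + 1 = x.1
      · have h1 : x.1.castSucc = y.1.succ := Fin.ext (by
          rw [Fin.val_castSucc, Fin.val_succ, hy])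
        rw [if_pos hy, Finset.sum_eq_single y.2]
        · simp only [h1, auxN, if_neg (Fin.succ_ne_zero _), if_true, mul_one, Fin.val_succ]
        · intro z _ hz
          simp only [h1, auxN, if_neg (Fin.succ_ne_zero _)]
          rw [if_neg, mul_zero]
          intro h
          exact hz (congrArg Prod.snd h)
        · intro h
          exact absurd (Finset.mem_univ _) h
      · rw [if_neg hy]
        refine Finset.sum_eq_zero fun z _ => ?_
        rw [auxN, if_neg (Fin.succ_ne_zero _), if_neg, mul_zero]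
        intro h
        apply hy
        have h1 : x.1.castSucc = y.1.succ := congrArg Prod.fst h
        have h2 := congrArg Fin.val h1
        rw [Fin.val_castSucc, Fin.val_succ] at h2
        exact h2.symm

theorem cyc_det_reg (m : ℕ) (δ : ℕ → A) (B : ℕ → Matrix I I A) (h : IsRegular (pd m δ 0)) :
    (cyc m (fun t _ => δ t) B).det = ((δ 0 * pd m δ 0) • (1 : Matrix I I A) - prodn B (m + 1)).det := by
  have h1 := congrArg Matrix.det (cyc_aux m δ B)
  rw [Matrix.det_submatrix_equiv_self, Matrix.det_mul, auxN_det, Matrix.det_fromBlocks_zero₂₁,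
    lowT_det] at h1
  exact (h.pow (Fintype.card I)).right h1

theorem prodn_map {B : Type} [CommRing B] (φ : A →+* B) (T : ℕ → Matrix I I A) (a : ℕ) :
    prodn (fun t => (T t).map φ) a = (prodn T a).map φ := by
  induction a with
  | zero => exact (Matrix.map_one φ (map_zero φ) (map_one φ)).symm
  | succ a ih =>
    rw [prodn, prodn, ih]
    exact (Matrix.map_mul).symm

/-- **the determinant of a block cyclic matrix** -/
theorem cyc_det (m : ℕ) (δ : ℕ → A) (B : ℕ → Matrix I I A) :
    (cyc m (fun t _ => δ t) B).det =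
      ((∏ t ∈ Finset.range (m + 1), δ t) • (1 : Matrix I I A) - prodn B (m + 1)).det := by
  set δ' : ℕ → A[X] := fun t => X + C (δ t) with hδ'
  set B' : ℕ → Matrix I I A[X] := fun t => (B t).map C with hB'
  have hreg : IsRegular (pd m δ' 0) := by
    have : (pd m δ' 0).Monic := by
      rw [pd]
      exact monic_prod_of_monic _ _ fun s _ => monic_X_add_C _
    exact this.isRegular
  have h1 := cyc_det_reg m δ' B' hreg
  have h2 := congrArg (evalRingHom (0 : A)) h1
  rw [RingHom.map_det, RingHom.map_det] at h2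
  have e1 : (evalRingHom (0 : A)).mapMatrix (cyc m (fun t _ => δ' t) B') =
      cyc m (fun t _ => δ t) B := by
    ext x y
    rw [RingHom.mapMatrix_apply, Matrix.map_apply, cyc, cyc, map_sub, apply_ite (evalRingHom (0 : A)),
      apply_ite (evalRingHom (0 : A)), map_zero, hδ', hB']
    simp only [coe_evalRingHom, eval_add, eval_X, eval_C, zero_add, Matrix.map_apply]
  have e2 : (evalRingHom (0 : A)).mapMatrix ((δ' 0 * pd m δ' 0) • (1 : Matrix I I A[X]) -
      prodn B' (m + 1)) = (∏ t ∈ Finset.range (m + 1), δ t) • (1 : Matrix I I A) -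
      prodn B (m + 1) := by
    have h3 : prodn B' (m + 1) = (prodn B (m + 1)).map (C : A →+* A[X]) := prodn_map C B (m + 1)
    have h4 : (evalRingHom (0 : A)) (δ' 0 * pd m δ' 0) = ∏ t ∈ Finset.range (m + 1), δ t := by
      rw [map_mul, pd_zero, map_prod, Finset.prod_range_succ',
        ← Fin.prod_univ_eq_prod_range (fun t => δ (t + 1)), mul_comm]
      simp only [hδ', coe_evalRingHom, eval_add, eval_X, eval_C, zero_add]
    rw [map_sub, h3]
    congr 1
    · ext i j
      rw [RingHom.mapMatrix_apply, Matrix.map_apply, Matrix.smul_apply, Matrix.smul_apply,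
        smul_eq_mul, smul_eq_mul, map_mul, h4, Matrix.one_apply, Matrix.one_apply]
      split_ifs <;> simp
    · ext i j
      rw [RingHom.mapMatrix_apply, Matrix.map_apply, Matrix.map_apply, coe_evalRingHom, eval_C]
  rw [e1, e2] at h2
  exact h2

/-- the level blocks -/
theorem cyc_levels (m : ℕ) (lev : I → ℕ) (δ : ℕ → ℕ → A) (B : ℕ → Matrix I I A)
    (hB : ∀ t i j, lev j < lev i → B t i j = 0) :
    (cyc m (fun t i => δ t (lev i)) B).det = ∏ k ∈ Finset.univ.image lev,
      ((∏ t ∈ Finset.range (m + 1), δ t k) • (1 : Matrix {i // lev i = k} {i // lev i = k} A) -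
        prodn (fun t => (B t).submatrix Subtype.val Subtype.val) (m + 1)).det := by
  have h : (cyc m (fun t i => δ t (lev i)) B).BlockTriangular (fun x => lev x.2) := by
    intro x y hxy
    have h1 : lev y.2 < lev x.2 := hxy
    rw [cyc, if_neg, zero_sub, neg_eq_zero]
    · split_ifs
      · exact hB _ _ _ h1
      · rfl
    · rintro rfl
      exact lt_irrefl _ h1
  rw [h.det]
  have himg : (Finset.univ : Finset (Fin (m + 1) × I)).image (fun x => lev x.2) =
      Finset.univ.image lev := by
    ext k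
    rw [Finset.mem_image, Finset.mem_image]
    constructor
    · rintro ⟨x, _, hx⟩
      exact ⟨x.2, Finset.mem_univ _, hx⟩
    · rintro ⟨i, _, hi⟩
      exact ⟨(0, i), Finset.mem_univ _, hi⟩
  rw [himg]
  refine Finset.prod_congr rfl fun k _ => ?_
  rw [← cyc_det m (fun t => δ t k)]
  let E : Fin (m + 1) × {i // lev i = k} ≃ {x : Fin (m + 1) × I // lev x.2 = k} :=
    { toFun := fun x => ⟨(x.1, x.2.1), x.2.2⟩
      invFun := fun x => (x.1.1, ⟨x.1.2, x.2⟩)
      left_inv := fun x => rfl
      right_inv := fun x => rfl }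
  rw [← Matrix.det_submatrix_equiv_self E]
  congr 1
  ext x y
  rw [Matrix.submatrix_apply, Matrix.toSquareBlock_def, Matrix.of_apply, cyc, cyc]
  have h1 : ((E x).1 = (E y).1) ↔ x = y := by
    rw [← Subtype.ext_iff]
    exact E.injective.eq_iff
  have h2 : (E x).1.2 = x.2.1 := rfl
  have h3 : (E x).1.1 = x.1 := rfl
  have h4 : (E y).1.1 = y.1 := rfl
  have h5 : (E y).1.2 = y.2.1 := rfl
  simp only [h1, h2, h3, h4, h5, x.2.2, Matrix.submatrix_apply]

end Pool.Agent.H856.DW
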