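import Pool.Agent.H425.Lead
import Pool.Agent.H425.Dom

set_option autoImplicit false
set_option linter.unusedSectionVars false
set_option linter.unusedVariables false

/-!
# Leading terms of the products of Dwork's splitting functions
-/

namespace Pool.Agent.H856.DW

open Pool.Agent.H425 MvPolynomial

section lead

variable {p : ℕ} {K : Type} [Field K] {ι : Type}

/-- the coefficients of the exponential of a form of degree `d` -/
noncomputable def lead (d : ℕ) (g : MvPolynomial ι K) (w : ι →₀ ℕ) : K :=
  if d ∣ w.degree then ((w.degree / d).factorial : K)⁻¹ * coeff w (g ^ (w.degree / d)) else 0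

theorem fac_ne [CharP K p] (hp : p.Prime) {m : ℕ} (hm : m < p) : ((m.factorial : ℕ) : K) ≠ 0 := by
  intro h0
  have h := (CharP.cast_eq_zero_iff K p _).1 h0
  rw [hp.dvd_factorial] at h
  omega

theorem lead_mul [CharP K p] (hp : p.Prime) {d : ℕ} (hd : 0 < d) {g h : MvPolynomial ι K}
    [DecidableEq ι]
    (hg : g.IsHomogeneous d) (hh : h.IsHomogeneous d) (w : ι →₀ ℕ) (hw : w.degree < p * d) :
    ∑ x ∈ Finset.HasAntidiagonal.antidiagonal w, lead d g x.1 * lead d h x.2 = lead d (g + h) w := by
  classical
  by_cases hdw : d ∣ w.degree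
  · obtain ⟨j, hj⟩ := hdw
    have hjd : w.degree / d = j := by rw [hj, Nat.mul_div_cancel_left _ hd]
    have hjp : j < p := by
      rw [hj, mul_comm] at hw
      exact Nat.lt_of_mul_lt_mul_right hw
    rw [lead, if_pos ⟨j, hj⟩, hjd, add_pow, coeff_sum, Finset.mul_sum]
    have h1 : ∀ i ∈ Finset.range (j + 1), ((j.factorial : ℕ) : K)⁻¹ *
        coeff w (g ^ i * h ^ (j - i) * ((j.choose i : ℕ) : MvPolynomial ι K)) =
        ∑ x ∈ Finset.HasAntidiagonal.antidiagonal w, ((j.factorial : ℕ) : K)⁻¹ * ((j.choose i : ℕ) : K) *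
          (coeff x.1 (g ^ i) * coeff x.2 (h ^ (j - i))) := by
      intro i _
      have h2 : ((j.choose i : ℕ) : MvPolynomial ι K) = C ((j.choose i : ℕ) : K) :=
        (map_natCast C _).symm
      rw [h2, mul_comm _ (C _), coeff_C_mul, coeff_mul, Finset.mul_sum, Finset.mul_sum]
      refine Finset.sum_congr rfl fun x _ => ?_
      ring
    rw [Finset.sum_congr rfl h1, Finset.sum_comm]
    refine Finset.sum_congr rfl fun x hx => ?_
    rw [Finset.HasAntidiagonal.mem_antidiagonal] at hx
    have hxd : x.1.degree + x.2.degree = d * j := by rw [← map_add, hx, hj]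
    by_cases hd1 : d ∣ x.1.degree
    · obtain ⟨i, hi⟩ := hd1
      have hij : i ≤ j := by
        have : d * i ≤ d * j := by omega
        exact Nat.le_of_mul_le_mul_left this hd
      have h2d : x.2.degree = d * (j - i) := by
        rw [Nat.mul_sub]
        omega
      rw [lead, if_pos ⟨i, hi⟩, lead, if_pos ⟨j - i, h2d⟩, hi, h2d, Nat.mul_div_cancel_left _ hd,
        Nat.mul_div_cancel_left _ hd]
      rw [Finset.sum_eq_single i]
      · have h3 : ((i.factorial : ℕ) : K) ≠ 0 := fac_ne hp (by omega)
        have h4 : (((j - i).factorial : ℕ) : K) ≠ 0 := fac_ne hp (by omega)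
        have h5 : ((j.factorial : ℕ) : K) ≠ 0 := fac_ne hp (by omega)
        have h6 : ((j.choose i : ℕ) : K) * (i.factorial : ℕ) * ((j - i).factorial : ℕ) =
            ((j.factorial : ℕ) : K) := by
          exact_mod_cast congrArg (Nat.cast (R := K)) (Nat.choose_mul_factorial_mul_factorial hij)
        have h7 : ((j.factorial : ℕ) : K)⁻¹ * ((j.choose i : ℕ) : K) =
            ((i.factorial : ℕ) : K)⁻¹ * (((j - i).factorial : ℕ) : K)⁻¹ := by
          field_simp
          linear_combination h6
        rw [h7]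
        ring
      · intro b _ hb
        have h3 : coeff x.1 (g ^ b) = 0 := by
          refine (hg.pow b).coeff_eq_zero ?_
          rw [hi]
          intro h4
          exact hb (Nat.eq_of_mul_eq_mul_left hd h4).symm
        rw [h3, zero_mul, mul_zero]
      · intro hn
        exact absurd (Finset.mem_range.2 (by omega)) hn
    · rw [lead, if_neg hd1, zero_mul, Finset.sum_eq_zero]
      intro i _
      have h3 : coeff x.1 (g ^ i) = 0 := by
        refine (hg.pow i).coeff_eq_zero ?_
        intro h4
        exact hd1 ⟨i, h4⟩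
      rw [h3, zero_mul, mul_zero]
  · rw [lead, if_neg hdw]
    refine Finset.sum_eq_zero fun x hx => ?_
    rw [Finset.HasAntidiagonal.mem_antidiagonal] at hx
    have hxd : x.1.degree + x.2.degree = w.degree := by rw [← map_add, hx]
    by_cases h1 : d ∣ x.1.degree
    · have h2 : ¬ d ∣ x.2.degree := fun h2 => hdw (hxd ▸ dvd_add h1 h2)
      rw [lead, lead, if_neg h2, mul_zero]
    · rw [lead, if_neg h1, zero_mul]

theorem lead_zero {d : ℕ} (hd : 0 < d) (w : ι →₀ ℕ) :
    lead d (0 : MvPolynomial ι K) w = open Classical in if w = 0 then 1 else 0 := by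
  classical
  rw [lead]
  by_cases hw : w = 0
  · subst hw
    rw [if_pos rfl, map_zero, if_pos (dvd_zero d), Nat.zero_div, pow_zero, coeff_zero_one]
    simp
  · rw [if_neg hw]
    split_ifs with h
    · obtain ⟨j, hj⟩ := h
      have hj0 : j ≠ 0 := by
        rintro rfl
        rw [mul_zero] at hj
        exact hw ((Finsupp.degree_eq_zero_iff w).1 hj)
      rw [hj, Nat.mul_div_cancel_left _ hd, zero_pow hj0, coeff_zero, mul_zero]
    · rfl

end lead

namespace S0

variable {p d : ℕ} [hp : Fact p.Prime] {K R : Type} [Field K] [CommRing R] [IsDomain R]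
  (S : Setup p d K R) {ι : Type}

/-- `F` has the leading terms of the exponential of `g` -/
def Ld (g : MvPolynomial ι K) (F : MvPowerSeries ι R) : Prop :=
  ∀ w : ι →₀ ℕ, w.degree < p * d → ∃ z : R,
    MvPowerSeries.coeff w F = S.lam ^ w.degree * z ∧ S.res z = lead d g w

theorem Ld_mul [CharP K p] (hd : 0 < d) {g h : MvPolynomial ι K}
    (hg : g.IsHomogeneous d) (hh : h.IsHomogeneous d) {F G : MvPowerSeries ι R}
    (hF : Ld S g F) (hG : Ld S h G) : Ld S (g + h) (F * G) := by
  classical
  intro w hw
  have hdeg : ∀ x ∈ Finset.HasAntidiagonal.antidiagonal w, x.1.degree + x.2.degree = w.degree := by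
    intro x hx
    rw [Finset.HasAntidiagonal.mem_antidiagonal] at hx
    rw [← map_add, hx]
  have h1 : ∀ x : (ι →₀ ℕ) × (ι →₀ ℕ), ∃ z : R, x ∈ Finset.HasAntidiagonal.antidiagonal w →
      MvPowerSeries.coeff x.1 F * MvPowerSeries.coeff x.2 G = S.lam ^ w.degree * z ∧
      S.res z = lead d g x.1 * lead d h x.2 := by
    intro x
    by_cases hx : x ∈ Finset.HasAntidiagonal.antidiagonal w
    · have hxd := hdeg x hx
      obtain ⟨z1, h1, h2⟩ := hF x.1 (by omega)
      obtain ⟨z2, h3, h4⟩ := hG x.2 (by omega)
      refine ⟨z1 * z2, fun _ => ⟨?_, ?_⟩⟩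
      · rw [h1, h3, ← hxd, pow_add]
        ring
      · rw [map_mul, h2, h4]
    · exact ⟨0, fun h => absurd h hx⟩
  choose z hz using h1
  refine ⟨∑ x ∈ Finset.HasAntidiagonal.antidiagonal w, z x, ?_, ?_⟩
  · rw [MvPowerSeries.coeff_mul, Finset.mul_sum]
    exact Finset.sum_congr rfl fun x hx => (hz x hx).1
  · rw [map_sum, ← lead_mul hp.out hd hg hh w hw]
    exact Finset.sum_congr rfl fun x hx => (hz x hx).2

theorem Ld_one (hd : 0 < d) : Ld S (0 : MvPolynomial ι K) (1 : MvPowerSeries ι R) := by
  classical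
  intro w _
  rw [lead_zero hd]
  by_cases hw : w = 0
  · refine ⟨1, ?_, ?_⟩
    · rw [hw, MvPowerSeries.coeff_one, if_pos rfl, map_zero, pow_zero, mul_one]
    · rw [if_pos hw, map_one]
  · refine ⟨0, ?_, ?_⟩
    · rw [MvPowerSeries.coeff_one, if_neg hw, mul_zero]
    · rw [if_neg hw, map_zero]

theorem monomial_homog {s : ι →₀ ℕ} {d : ℕ} (hs : s.degree = d) (c : K) :
    (monomial s c : MvPolynomial ι K).IsHomogeneous d :=
  isHomogeneous_monomial c hs

/-- the factors of the monomials of degree `d` -/
theorem Ld_Fs_top [CharP K p] (hd : 0 < d) (s : ι →₀ ℕ) (hs : s.degree = d) (c : R) :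
    Ld S (monomial s (S.res c)) (S.Fs s c) := by
  classical
  have hs0 : s ≠ 0 := by
    rintro rfl
    rw [map_zero] at hs
    omega
  intro w hw
  by_cases h : ∃ j : ℕ, j • s = w
  · obtain ⟨j, rfl⟩ := h
    have hdeg : (j • s).degree = d * j := by rw [map_nsmul, hs, smul_eq_mul, mul_comm]
    have hj : j < p := by
      rw [hdeg, mul_comm] at hw
      exact Nat.lt_of_mul_lt_mul_right hw
    have h1 := S.th_small j hj
    have hfac := fac_ne (K := K) hp.out hj
    have hR : IsUnit ((j.factorial : ℕ) : R) := by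
      refine S.isUnit_nat ?_
      rw [hp.out.dvd_factorial]
      omega
    obtain ⟨u, hu⟩ := hR
    have h2 : S.th j = S.lam ^ (d * j) * (↑u⁻¹ : R) := by
      have h3 : (u : R) * S.th j = S.lam ^ (d * j) := by
        rw [hu, h1, Setup.pi, pow_mul]
      rw [← h3]
      have h4 : (u : R) * (↑u⁻¹ : R) = 1 := Units.mul_inv u
      linear_combination (-S.th j) * h4
    refine ⟨(↑u⁻¹ : R) * c ^ j, ?_, ?_⟩
    · rw [S.coeff_Fs s hs0, h2, hdeg]
      ring
    · rw [lead, hdeg, if_pos (dvd_mul_right d j), Nat.mul_div_cancel_left _ hd, monomial_pow,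
        coeff_monomial, if_pos rfl, map_mul, map_pow]
      congr 1
      apply mul_left_cancel₀ hfac
      rw [mul_inv_cancel₀ hfac, ← map_natCast S.res, ← hu, ← map_mul, Units.mul_inv, map_one]
  · push Not at h
    refine ⟨0, ?_, ?_⟩
    · rw [S.coeff_Fs_ne s c w h, mul_zero]
    · rw [map_zero, lead]
      split_ifs with hdw
      · rw [monomial_pow, coeff_monomial, if_neg (h _), mul_zero]
      · rfl

/-- the factors of the other monomials -/
theorem Ld_Fs_low (hd : 0 < d) (hpd : 2 * d + 3 < p) (s : ι →₀ ℕ) (hs0 : s ≠ 0)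
    (hs : s.degree < d) (c : R) : Ld S (0 : MvPolynomial ι K) (S.Fs s c) := by
  classical
  intro w _
  rw [lead_zero hd]
  by_cases h : ∃ j : ℕ, j • s = w
  · obtain ⟨j, rfl⟩ := h
    rcases Nat.eq_zero_or_pos j with rfl | hj
    · refine ⟨1, ?_, ?_⟩
      · have h1 := S.coeff_Fs s hs0 c 0
        rw [h1, S.th_zero, zero_smul, map_zero]
        simp
      · rw [zero_smul, if_pos rfl, map_one]
    · have hdeg : (j • s).degree = j * s.degree := by rw [map_nsmul, smul_eq_mul]
      have hle : j * s.degree + 1 ≤ d * ce p j := by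
        unfold ce
        have h1 : 2 * j / p * p ≤ 2 * j := Nat.div_mul_le_self _ _
        have h2 : 2 * j / p ≤ j := by
          refine Nat.div_le_of_le_mul ?_
          nlinarith
        set k := 2 * j / p with hk
        have h3 : j * s.degree + j ≤ d * j := by
          have : s.degree + 1 ≤ d := hs
          nlinarith
        have h4 : d * (j - k) + d * k = d * j := by
          rw [← mul_add, Nat.sub_add_cancel h2]
        have h5 : d * k + 1 ≤ j := by
          rcases Nat.eq_zero_or_pos k with h0 | h0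
          · rw [h0, mul_zero]; omega
          · nlinarith
        omega
      obtain ⟨q, hq⟩ := (pow_dvd_pow S.lam hle).trans (S.th_dvd j)
      refine ⟨S.lam * (q * c ^ j), ?_, ?_⟩
      · rw [S.coeff_Fs s hs0, hq, hdeg, pow_succ]
        ring
      · rw [map_mul, S.res_lam, zero_mul, if_neg]
        intro h0
        have h1 := congrArg Finsupp.degree h0
        rw [hdeg, map_zero] at h1
        have h2 := Setup.degree_pos hs0
        have := Nat.mul_pos hj h2
        omega
  · push Not at h
    refine ⟨0, ?_, ?_⟩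
    · rw [S.coeff_Fs_ne s c w h, mul_zero]
    · rw [map_zero, if_neg]
      intro h0
      exact h 0 (by rw [zero_smul, h0])

/-- the leading form of the family of coefficients -/
noncomputable def topForm (d : ℕ) (supp : Finset (ι →₀ ℕ)) (c : (ι →₀ ℕ) → K) : MvPolynomial ι K :=
  ∑ s ∈ supp, if s.degree = d then monomial s (c s) else 0

theorem topForm_homog (d : ℕ) (supp : Finset (ι →₀ ℕ)) (c : (ι →₀ ℕ) → K) :
    (topForm d supp c).IsHomogeneous d := by
  refine IsHomogeneous.sum _ _ _ fun s _ => ?_
  split_ifs with h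
  · exact isHomogeneous_monomial _ h
  · exact isHomogeneous_zero _ _ _

theorem Ld_FF [CharP K p] (hd : 0 < d) (hpd : 2 * d + 3 < p) (supp : Finset (ι →₀ ℕ))
    (c : (ι →₀ ℕ) → R) (h0 : 0 ∉ supp) (hs : ∀ s ∈ supp, s.degree ≤ d) :
    Ld S (topForm d supp (fun s => S.res (c s))) (S.FF supp c) := by
  classical
  rw [Setup.FF]
  induction supp using Finset.induction_on with
  | empty =>
    rw [Finset.prod_empty]
    have : topForm d (∅ : Finset (ι →₀ ℕ)) (fun s => S.res (c s)) = 0 := by
      rw [topForm, Finset.sum_empty]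
    rw [this]
    exact Ld_one S hd
  | insert s T hsT ih =>
    rw [Finset.prod_insert hsT]
    have h1 : topForm d (insert s T) (fun s => S.res (c s)) =
        (if s.degree = d then monomial s (S.res (c s)) else 0) +
          topForm d T (fun s => S.res (c s)) := by
      rw [topForm, Finset.sum_insert hsT]
      rfl
    rw [h1]
    refine Ld_mul S hd ?_ (topForm_homog _ _ _) ?_ (ih (fun h => h0 (Finset.mem_insert_of_mem h))
      (fun s hs' => hs s (Finset.mem_insert_of_mem hs')))
    · split_ifs with h
      · exact isHomogeneous_monomial _ h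
      · exact isHomogeneous_zero _ _ _
    · have hs0 : s ≠ 0 := fun h => h0 (h ▸ Finset.mem_insert_self s T)
      split_ifs with h
      · exact Ld_Fs_top S hd s h (c s)
      · exact Ld_Fs_low S hd hpd s hs0
          (lt_of_le_of_ne (hs s (Finset.mem_insert_self s T)) h) (c s)

end S0

end Pool.Agent.H856.DW
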