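import Pool.Agent.H425.Psi

set_option autoImplicit false
set_option linter.unusedSectionVars false
set_option linter.unusedVariables false

/-!
# The Cartier operator on the differentials with simple poles at the roots of a polynomial
-/

namespace Pool.Agent.H856.DW

open Pool.Agent.H425 Polynomial

variable {p : ℕ} [hp : Fact p.Prime] {K : Type} [Field K] [CharP K p]

/-- the Frobenius twists of a polynomial -/
noncomputable def tw (p : ℕ) [Fact p.Prime] [CharP K p] (G : K[X]) (t : ℕ) : K[X] :=
  G.map (iterateFrobenius K p t)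

theorem coeff_tw (G : K[X]) (t j : ℕ) : (tw p G t).coeff j = G.coeff j ^ (p ^ t) := by
  rw [tw, coeff_map, iterateFrobenius_def]

theorem tw_mul (G H : K[X]) (t : ℕ) : tw p (G * H) t = tw p G t * tw p H t := by
  rw [tw, tw, tw, Polynomial.map_mul]

theorem tw_pow (G : K[X]) (t n : ℕ) : tw p (G ^ n) t = tw p G t ^ n := by
  rw [tw, tw, Polynomial.map_pow]

theorem tw_linear (r : K) (t : ℕ) : tw p (X - C r) t = X - C (r ^ (p ^ t)) := by
  rw [tw, Polynomial.map_sub, map_X, map_C, iterateFrobenius_def]

theorem tw_expand (G : K[X]) (t : ℕ) : tw p G t ^ p = expand K p (tw p G (t + 1)) := by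
  rw [← Polynomial.map_frobenius_expand p (tw p G t), Polynomial.map_expand]
  congr 1
  ext j
  rw [coeff_map, coeff_tw, coeff_tw, frobenius_def, ← pow_mul, pow_succ]

theorem expand_linear (r : K) : expand K p (X - C (r ^ p)) = (X - C r) ^ p := by
  rw [map_sub, expand_X, expand_C, sub_pow_char, C_pow]

/-- the identity behind the Cartier operator -/
theorem cartier_poly (G Q : K[X]) (r : K) (h : G = (X - C r) * Q) (t : ℕ) :
    tw p G t ^ (p - 1) * tw p Q t =
      (X - C (r ^ (p ^ t))) ^ (p - 1) * expand K p (tw p Q (t + 1)) := by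
  have hne : (X - C (r ^ (p ^ t)) : K[X]) ≠ 0 := X_sub_C_ne_zero _
  have hp1 : p - 1 + 1 = p := Nat.sub_add_cancel hp.out.one_lt.le
  apply mul_left_cancel₀ hne
  have h1 : tw p G t = (X - C (r ^ (p ^ t))) * tw p Q t := by
    rw [h, tw_mul, tw_linear]
  have h2 : tw p G (t + 1) = (X - C ((r ^ (p ^ t)) ^ p)) * tw p Q (t + 1) := by
    rw [h, tw_mul, tw_linear, ← pow_mul, pow_succ]
  calc (X - C (r ^ (p ^ t))) * (tw p G t ^ (p - 1) * tw p Q t) =
        tw p G t ^ (p - 1) * ((X - C (r ^ (p ^ t))) * tw p Q t) := by ring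
    _ = tw p G t ^ p := by rw [← h1, ← pow_succ, hp1]
    _ = (X - C (r ^ (p ^ t))) ^ p * expand K p (tw p Q (t + 1)) := by
      rw [tw_expand, h2, map_mul, expand_linear]
    _ = (X - C (r ^ (p ^ t))) ^ (p - 1 + 1) * expand K p (tw p Q (t + 1)) := by rw [hp1]
    _ = _ := by rw [pow_succ]; ring

/-- coefficients of the right hand side -/
theorem coeff_expand_mul (F Q : K[X]) (hF : F.Monic) (hdeg : F.natDegree = p - 1) (i : ℕ) :
    (F * expand K p Q).coeff (p * (i + 1) - 1) = Q.coeff i := by
  have hp1 := hp.out.one_lt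
  have he : p * (i + 1) - 1 = (p - 1) + p * i := by
    rw [mul_add, mul_one]
    omega
  rw [he, coeff_mul, Finset.sum_eq_single (p - 1, p * i)]
  · have h1 : F.coeff (p - 1) = 1 := by rw [← hdeg]; exact hF.coeff_natDegree
    dsimp only
    rw [h1, one_mul, coeff_expand_mul' hp.out.pos]
  · intro x hx hne
    rw [Finset.HasAntidiagonal.mem_antidiagonal] at hx
    by_cases h1 : p - 1 < x.1
    · rw [coeff_eq_zero_of_natDegree_lt (by omega), zero_mul]
    · rw [coeff_expand hp.out.pos]
      split_ifs with h2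
      · exfalso
        apply hne
        obtain ⟨k, hk⟩ := h2
        have hki : k = i := by
          rcases lt_trichotomy k i with h | h | h
          · exfalso
            obtain ⟨c, rfl⟩ := Nat.exists_eq_add_of_lt h
            rw [hk] at hx
            have : p * (k + c + 1) = p * k + p * c + p := by ring
            rw [this] at hx
            omega
          · exact h
          · exfalso
            obtain ⟨c, rfl⟩ := Nat.exists_eq_add_of_lt h
            rw [hk] at hx
            have : p * (i + c + 1) = p * i + p * c + p := by ring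
            rw [this] at hx
            omega
        rw [hki] at hk
        refine Prod.ext ?_ hk
        simp only
        omega
      · rw [mul_zero]
  · intro h
    exfalso
    apply h
    rw [Finset.HasAntidiagonal.mem_antidiagonal]

/-- the matrices of the Cartier operator -/
noncomputable def ct (p : ℕ) [Fact p.Prime] [CharP K p] (G : K[X]) (n t : ℕ) :
    Matrix (Fin n) (Fin n) K :=
  fun i j => (tw p G t ^ (p - 1)).coeff (p * (i + 1) - (j + 1))

theorem cartier_step (G Q : K[X]) (r : K) (h : G = (X - C r) * Q) {n : ℕ} (hn : n ≤ p)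
    (hQ : Q.natDegree < n) (t : ℕ) (i : Fin n) :
    ∑ j : Fin n, ct p G n t i j * (tw p Q t).coeff j = (tw p Q (t + 1)).coeff i := by
  have hp1 := hp.out.one_lt
  have h1 := congrArg (fun P => P.coeff (p * (i + 1) - 1)) (cartier_poly (p := p) G Q r h t)
  beta_reduce at h1
  rw [coeff_expand_mul _ _ ((monic_X_sub_C _).pow _)
    (by rw [natDegree_pow, natDegree_X_sub_C, mul_one])] at h1
  rw [← h1, coeff_mul, Finset.Nat.sum_antidiagonal_eq_sum_range_succ
    (fun a b => (tw p G t ^ (p - 1)).coeff a * (tw p Q t).coeff b)]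
  have hle : p ≤ p * ((i : ℕ) + 1) := Nat.le_mul_of_pos_right _ (Nat.succ_pos _)
  rw [← Finset.sum_range_reflect]
  have hs : (p * ((i : ℕ) + 1) - 1).succ = p * (i + 1) := by omega
  rw [hs]
  have h2 : ∑ j : Fin n, ct p G n t i j * (tw p Q t).coeff j =
      ∑ j ∈ Finset.range n, (tw p G t ^ (p - 1)).coeff (p * (i + 1) - (j + 1)) *
        (tw p Q t).coeff j :=
    Fin.sum_univ_eq_sum_range (fun j => (tw p G t ^ (p - 1)).coeff (p * (i + 1) - (j + 1)) *
        (tw p Q t).coeff j) n
  rw [h2]
  rw [← Finset.sum_subset (Finset.range_subset_range.2 (show n ≤ p * ((i : ℕ) + 1) by omega))]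
  · refine Finset.sum_congr rfl fun j hj => ?_
    rw [Finset.mem_range] at hj
    have e1 : p * ((i : ℕ) + 1) - 1 - j = p * (i + 1) - (j + 1) := by omega
    have e2 : p * ((i : ℕ) + 1) - 1 - (p * ((i : ℕ) + 1) - 1 - j) = j := by omega
    rw [e2, e1]
  · intro j hj hj2
    rw [Finset.mem_range] at hj hj2
    have e2 : p * ((i : ℕ) + 1) - 1 - (p * ((i : ℕ) + 1) - 1 - j) = j := by omega
    rw [e2]
    have : (tw p Q t).coeff j = 0 := by
      rw [coeff_tw, coeff_eq_zero_of_natDegree_lt (by omega), zero_pow]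
      exact pow_ne_zero _ hp.out.ne_zero
    rw [this, mul_zero]

theorem prodn_step (G Q : K[X]) (r : K) (h : G = (X - C r) * Q) {n : ℕ} (hn : n ≤ p)
    (hQ : Q.natDegree < n) (m : ℕ) (i : Fin n) :
    ∑ j : Fin n, prodn (ct p G n) m i j * Q.coeff j = (tw p Q m).coeff i := by
  induction m generalizing i with
  | zero =>
    rw [coeff_tw, pow_zero, pow_one]
    simp only [prodn, Matrix.one_apply, ite_mul, one_mul, zero_mul]
    rw [Finset.sum_ite_eq]
    simp
  | succ m ih =>
    rw [← cartier_step G Q r h hn hQ m i]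
    have h1 : ∀ j : Fin n, prodn (ct p G n) (m + 1) i j * Q.coeff j =
        ∑ l : Fin n, ct p G n m i l * (prodn (ct p G n) m l j * Q.coeff j) := by
      intro j
      rw [prodn, Matrix.mul_apply, Finset.sum_mul]
      exact Finset.sum_congr rfl fun l _ => by ring
    rw [Finset.sum_congr rfl (fun j _ => h1 j), Finset.sum_comm]
    refine Finset.sum_congr rfl fun l _ => ?_
    rw [← Finset.mul_sum, ih l]

end Pool.Agent.H856.DW
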