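import Pool.Agent.H856.DW.HW

set_option autoImplicit false
set_option linter.unusedSectionVars false
set_option linter.unusedVariables false

/-!
# The multiplicity of the eigenvalue one of the Cartier operator
-/

namespace Pool.Agent.H856.DW

open Pool.Agent.H425 Polynomial

variable {p : ℕ} [hp : Fact p.Prime] {K : Type} [Field K] [CharP K p]

/-- the matrix of a permutation -/
def pm (K : Type) [Field K] {n : ℕ} (π : Fin n → Fin n) : Matrix (Fin n) (Fin n) K :=
  fun i j => if i = π j then 1 else 0

theorem pm_lin {n : ℕ} (π : Fin n → Fin n) (v : Fin n → K) (i : Fin n) :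
    Matrix.toLin' (pm K π).transpose v i = v (π i) := by
  rw [Matrix.toLin'_apply, Matrix.mulVec, dotProduct]
  simp only [Matrix.transpose_apply, pm, ite_mul, one_mul, zero_mul]
  rw [Finset.sum_ite_eq']
  simp

theorem pm_lin_pow {n : ℕ} (π : Equiv.Perm (Fin n)) (k : ℕ) (v : Fin n → K) (i : Fin n) :
    ((Matrix.toLin' (pm K π).transpose) ^ k) v i = v ((π ^ k) i) := by
  induction k generalizing i v with
  | zero => rfl
  | succ k ih =>
    rw [pow_succ, Module.End.mul_apply, ih, pm_lin, pow_succ']
    rfl

theorem mult_perm {n : ℕ} (hn : n < p) (π : Equiv.Perm (Fin n)) (T : Finset (Fin n))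
    (hT : ∀ i, ∃ t ∈ T, ∃ k : ℕ, (π ^ k) t = i) :
    (pm K π).charpoly.rootMultiplicity 1 ≤ T.card := by
  set φ : Module.End K (Fin n → K) := Matrix.toLin' (pm K π).transpose with hφ
  have h1 : (pm K π).charpoly = φ.charpoly := by
    rw [hφ, Matrix.charpoly_toLin', Matrix.charpoly_transpose]
  rw [h1, ← LinearMap.finrank_maxGenEigenspace_eq]
  have hN : π ^ n.factorial = 1 := by
    have h2 : Fintype.card (Equiv.Perm (Fin n)) = n.factorial := by
      rw [Fintype.card_perm, Fintype.card_fin]
    rw [← h2]
    exact pow_card_eq_one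
  have hNK : ((n.factorial : ℕ) : K) ≠ 0 := by
    intro h0
    have h := (CharP.cast_eq_zero_iff K p _).1 h0
    rw [hp.out.dvd_factorial] at h
    omega
  have hss : φ.IsSemisimple := by
    refine Module.End.isSemisimple_of_squarefree_aeval_eq_zero
      (separable_X_pow_sub_C (1 : K) hNK one_ne_zero).squarefree ?_
    rw [map_sub, map_pow, aeval_X, aeval_C, map_one, sub_eq_zero]
    refine LinearMap.ext fun v => funext fun i => ?_
    rw [hφ, pm_lin_pow, hN]
    rfl
  rw [hss.isFinitelySemisimple.maxGenEigenspace_eq_eigenspace]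
  let res : (φ.eigenspace 1) →ₗ[K] (T → K) :=
    { toFun := fun v t => v.1 t
      map_add' := fun v w => rfl
      map_smul' := fun c v => rfl }
  have hinj : Function.Injective res := by
    rw [← LinearMap.ker_eq_bot, LinearMap.ker_eq_bot']
    intro v hv
    have hv1 : ∀ i, v.1 (π i) = v.1 i := by
      intro i
      have h2 : φ v.1 = (1 : K) • v.1 := Module.End.mem_eigenspace_iff.1 v.2
      have h3 := congrFun h2 i
      rw [one_smul] at h3
      exact (pm_lin (⇑π) v.1 i).symm.trans h3
    have hv2 : ∀ (k : ℕ) (i : Fin n), v.1 ((π ^ k) i) = v.1 i := by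
      intro k
      induction k with
      | zero => intro i; rfl
      | succ k ih =>
        intro i
        rw [pow_succ', Equiv.Perm.mul_apply, hv1, ih]
    apply Subtype.ext
    funext i
    obtain ⟨t, ht, k, hk⟩ := hT i
    rw [← hk, hv2]
    exact congrFun hv ⟨t, ht⟩
  have h3 := LinearMap.finrank_le_finrank_of_injective hinj
  rwa [Module.finrank_fintype_fun_eq_card, Fintype.card_coe] at h3

/-- the quotients of the polynomial by its linear factors -/
noncomputable def quo (G : K[X]) (r : K) : K[X] := G /ₘ (X - C r)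

theorem quo_spec (G : K[X]) {r : K} (h : G.IsRoot r) : (X - C r) * quo G r = G :=
  mul_divByMonic_eq_iff_isRoot.2 h

theorem quo_unique (G Q : K[X]) (r : K) (h : G = (X - C r) * Q) : quo G r = Q := by
  rw [quo, h, mul_divByMonic_cancel_left _ (monic_X_sub_C r)]

theorem natDegree_quo (G : K[X]) (r : K) : (quo G r).natDegree = G.natDegree - 1 := by
  rw [quo, natDegree_divByMonic _ (monic_X_sub_C r), natDegree_X_sub_C]

theorem isRoot_frob (G : K[X]) (m : ℕ) (hG : tw p G m = G) {r : K} (h : G.IsRoot r) :
    G.IsRoot (r ^ (p ^ m)) := by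
  have h1 := congrArg (fun P => tw p P m) (quo_spec G h)
  beta_reduce at h1
  rw [tw_mul, tw_linear, hG] at h1
  rw [← h1, IsRoot, eval_mul, eval_sub, eval_X, eval_C, sub_self, zero_mul]

theorem tw_quo (G : K[X]) (m : ℕ) (hG : tw p G m = G) {r : K} (h : G.IsRoot r) :
    tw p (quo G r) m = quo G (r ^ (p ^ m)) := by
  have h1 := congrArg (fun P => tw p P m) (quo_spec G h)
  beta_reduce at h1
  rw [tw_mul, tw_linear, hG] at h1
  exact (quo_unique G _ _ h1.symm).symm

/-- the roots, numbered -/
theorem exists_roots [IsAlgClosed K] (G : K[X]) (hsep : G.Separable) :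
    ∃ ε : Fin G.natDegree → K, Function.Injective ε ∧ (∀ i, G.IsRoot (ε i)) ∧
      ∀ r, G.IsRoot r → ∃ i, ε i = r := by
  classical
  have hG0 : G ≠ 0 := hsep.ne_zero
  have hcard : G.roots.toFinset.card = G.natDegree := by
    rw [Multiset.toFinset_card_of_nodup (nodup_roots hsep)]
    exact (IsAlgClosed.splits G).natDegree_eq_card_roots.symm
  let e := G.roots.toFinset.equivFinOfCardEq hcard
  refine ⟨fun i => (e.symm i).1, ?_, ?_, ?_⟩
  · intro i j h
    exact e.symm.injective (Subtype.ext h)
  · intro i
    have := (e.symm i).2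
    rw [Multiset.mem_toFinset, mem_roots hG0] at this
    exact this
  · intro r hr
    have hr' : r ∈ G.roots.toFinset := by
      rw [Multiset.mem_toFinset, mem_roots hG0]
      exact hr
    exact ⟨e ⟨r, hr'⟩, by simp⟩

/-- **the multiplicity of the eigenvalue one on the larger space** -/
theorem mult_big [IsAlgClosed K] (G : K[X]) (hsep : G.Separable) (hdeg : G.natDegree < p)
    (hpos : 0 < G.natDegree) (m : ℕ) (hG : tw p G m = G) (T : Finset K)
    (hTroot : ∀ r ∈ T, G.IsRoot r)
    (hT : ∀ r, G.IsRoot r → ∃ t ∈ T, ∃ k : ℕ, t ^ ((p ^ m) ^ k) = r) :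
    (prodn (ct p G G.natDegree) m).charpoly.rootMultiplicity 1 ≤ T.card := by
  classical
  obtain ⟨ε, hε, hεr, hεs⟩ := exists_roots G hsep
  have hfr : ∀ i, ∃ j, ε j = (ε i) ^ (p ^ m) := fun i => hεs _ (isRoot_frob G m hG (hεr i))
  choose π hπ using hfr
  have hπinj : Function.Injective π := by
    intro i j h
    apply hε
    have h1 : (ε i) ^ (p ^ m) = (ε j) ^ (p ^ m) := by rw [← hπ, ← hπ, h]
    exact iterateFrobenius_inj K p m (by rw [iterateFrobenius_def, iterateFrobenius_def, h1])
  let πe : Equiv.Perm (Fin G.natDegree) := Equiv.ofBijective π (Finite.injective_iff_bijective.1 hπinj)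
  have hπe : ∀ j, πe j = π j := fun _ => rfl
  let P : Matrix (Fin G.natDegree) (Fin G.natDegree) K :=
    Matrix.of fun i j => (quo G (ε j)).coeff i
  have hMP : prodn (ct p G G.natDegree) m * P = P * pm K πe := by
    ext i j
    rw [Matrix.mul_apply, Matrix.mul_apply]
    have h1 := prodn_step (p := p) G (quo G (ε j)) (ε j) (quo_spec G (hεr j)).symm
      (n := G.natDegree) hdeg.le (by rw [natDegree_quo]; omega) m i
    have h2 : ∑ l, P i l * pm K πe l j = P i (π j) := by
      rw [Finset.sum_eq_single (π j)]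
      · simp only [pm, hπe, if_true, mul_one]
      · intro l _ hl
        simp only [pm, hπe, if_neg hl, mul_zero]
      · intro h
        exact absurd (Finset.mem_univ _) h
    rw [h2]
    refine h1.trans ?_
    rw [tw_quo G m hG (hεr j), ← hπ]
    rfl
  have hPdet : P.det ≠ 0 := by
    intro h0
    obtain ⟨v, hv, hPv⟩ := Matrix.exists_mulVec_eq_zero_iff.2 h0
    apply hv
    have h1 : ∑ j, C (v j) * quo G (ε j) = 0 := by
      ext i
      rw [finsetSum_coeff, coeff_zero]
      by_cases hi : i < G.natDegree
      · have h2 := congrFun hPv ⟨i, hi⟩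
        rw [Matrix.mulVec, dotProduct, Pi.zero_apply] at h2
        rw [← h2]
        refine Finset.sum_congr rfl fun j _ => ?_
        rw [coeff_C_mul, mul_comm]
        rfl
      · refine Finset.sum_eq_zero fun j _ => ?_
        rw [coeff_C_mul, coeff_eq_zero_of_natDegree_lt (p := quo G (ε j)) (by
          rw [natDegree_quo]; omega), mul_zero]
    funext j0
    have h2 := congrArg (eval (ε j0)) h1
    rw [eval_finsetSum, eval_zero, Finset.sum_eq_single j0] at h2
    · rw [eval_mul, eval_C] at h2
      rcases mul_eq_zero.1 h2 with h3 | h3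
      · exact h3
      · exfalso
        have h4 : G.derivative.eval (ε j0) = 0 := by
          have h5 := congrArg derivative (quo_spec G (hεr j0))
          rw [derivative_mul, derivative_sub, derivative_X, derivative_C, sub_zero, one_mul] at h5
          rw [← h5, eval_add, eval_mul, h3, eval_sub, eval_X, eval_C, sub_self, zero_mul, add_zero]
        exact hsep.eval₂_derivative_ne_zero (RingHom.id K) (hεr j0) h4
    · intro j _ hj
      have h3 : (quo G (ε j)).eval (ε j0) = 0 := by
        have h4 := congrArg (eval (ε j0)) (quo_spec G (hεr j))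
        rw [eval_mul, eval_sub, eval_X, eval_C, (hεr j0)] at h4
        rcases mul_eq_zero.1 h4 with h5 | h5
        · exfalso
          exact hj (hε (sub_eq_zero.1 h5).symm)
        · exact h5
      rw [eval_mul, h3, mul_zero]
    · intro h
      exact absurd (Finset.mem_univ _) h
  have hu : IsUnit P.det := hPdet.isUnit
  have hchar : (prodn (ct p G G.natDegree) m).charpoly = (pm K πe).charpoly := by
    have h1 : prodn (ct p G G.natDegree) m = P * pm K πe * P⁻¹ := by
      rw [← hMP, Matrix.mul_assoc, Matrix.mul_nonsing_inv _ hu, Matrix.mul_one]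
    rw [h1, Matrix.mul_assoc, Matrix.charpoly_mul_comm, Matrix.mul_assoc,
      Matrix.nonsing_inv_mul _ hu, Matrix.mul_one]
  rw [hchar]
  -- representatives
  have hpow : ∀ (k : ℕ) (i : Fin G.natDegree), ε ((πe ^ k) i) = ε i ^ ((p ^ m) ^ k) := by
    intro k
    induction k with
    | zero => intro i; rw [pow_zero, pow_zero, pow_one]; rfl
    | succ k ih =>
      intro i
      have h1 : ε (πe ((πe ^ k) i)) = ε ((πe ^ k) i) ^ (p ^ m) := hπ _
      rw [pow_succ', Equiv.Perm.mul_apply, h1, ih, ← pow_mul, pow_succ]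
  have hTi : ∀ r ∈ T, ∃ i, ε i = r := fun r hr => hεs r (hTroot r hr)
  let T' : Finset (Fin G.natDegree) := Finset.univ.filter fun i => ε i ∈ T
  have hT' : T'.card ≤ T.card := by
    refine Finset.card_le_card_of_injOn ε ?_ hε.injOn
    intro i hi
    exact (Finset.mem_filter.1 hi).2
  refine (mult_perm hdeg πe T' ?_).trans hT'
  intro i
  obtain ⟨t, ht, k, hk⟩ := hT (ε i) (hεr i)
  obtain ⟨j, hj⟩ := hTi t ht
  refine ⟨j, Finset.mem_filter.2 ⟨Finset.mem_univ _, by rw [hj]; exact ht⟩, k, ?_⟩
  apply hε
  rw [hpow, hj, hk]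

end Pool.Agent.H856.DW
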