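import Pool.Agent.H856.DW.HW2

set_option autoImplicit false
set_option linter.unusedSectionVars false
set_option linter.unusedVariables false

/-!
# The multiplicity of the eigenvalue one and the number of irreducible factors
-/

namespace Pool.Agent.H856.DW

open Pool.Agent.H425 Polynomial

theorem prodn_block {A : Type} [CommRing A] {n : ℕ} (B : ℕ → Matrix (Fin (n + 1)) (Fin (n + 1)) A)
    (hB : ∀ t j, B t (Fin.last n) (Fin.castSucc j) = 0) (m : ℕ) :
    (∀ j, prodn B m (Fin.last n) (Fin.castSucc j) = 0) ∧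
    (prodn B m).submatrix Fin.castSucc Fin.castSucc =
      prodn (fun t => (B t).submatrix Fin.castSucc Fin.castSucc) m ∧
    prodn B m (Fin.last n) (Fin.last n) = ∏ t ∈ Finset.range m, B t (Fin.last n) (Fin.last n) := by
  induction m with
  | zero =>
    refine ⟨fun j => ?_, ?_, ?_⟩
    · rw [prodn, Matrix.one_apply_ne (Fin.castSucc_lt_last j).ne']
    · rw [prodn, prodn]
      exact Matrix.submatrix_one _ (Fin.castSucc_injective n)
    · rw [prodn, Matrix.one_apply_eq, Finset.prod_range_zero]
  | succ m ih =>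
    obtain ⟨h1, h2, h3⟩ := ih
    refine ⟨fun j => ?_, ?_, ?_⟩
    · rw [prodn, Matrix.mul_apply, Fin.sum_univ_castSucc, h1, mul_zero, add_zero]
      exact Finset.sum_eq_zero fun l _ => by rw [hB, zero_mul]
    · rw [prodn, prodn, ← h2]
      ext i j
      rw [Matrix.submatrix_apply, Matrix.mul_apply, Fin.sum_univ_castSucc, h1, mul_zero, add_zero,
        Matrix.mul_apply]
      rfl
    · rw [prodn, Matrix.mul_apply, Fin.sum_univ_castSucc, Finset.prod_range_succ, h3,
        Finset.sum_eq_zero, zero_add, mul_comm]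
      exact fun l _ => by rw [hB, zero_mul]

theorem charpoly_block {A : Type} [CommRing A] {n : ℕ} (M : Matrix (Fin (n + 1)) (Fin (n + 1)) A)
    (hM : ∀ j, M (Fin.last n) (Fin.castSucc j) = 0) :
    M.charpoly = (M.submatrix Fin.castSucc Fin.castSucc).charpoly *
      (X - C (M (Fin.last n) (Fin.last n))) := by
  have h1 : (M.submatrix (finSumFinEquiv : Fin n ⊕ Fin 1 ≃ Fin (n + 1)) finSumFinEquiv).charpoly =
      M.charpoly := by
    have := Matrix.charpoly_reindex (finSumFinEquiv : Fin n ⊕ Fin 1 ≃ Fin (n + 1)).symm M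
    rw [← this]
    rfl
  have h2 : M.submatrix (finSumFinEquiv : Fin n ⊕ Fin 1 ≃ Fin (n + 1)) finSumFinEquiv =
      Matrix.fromBlocks (M.submatrix Fin.castSucc Fin.castSucc)
        (M.submatrix Fin.castSucc (fun _ : Fin 1 => Fin.last n)) 0
        (Matrix.of fun (_ _ : Fin 1) => M (Fin.last n) (Fin.last n)) := by
    have e1 : ∀ i : Fin n, finSumFinEquiv (Sum.inl i : Fin n ⊕ Fin 1) = Fin.castSucc i :=
      fun i => rfl
    have e2 : ∀ i : Fin 1, finSumFinEquiv (Sum.inr i : Fin n ⊕ Fin 1) = Fin.last n := by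
      intro i
      rw [Subsingleton.elim i 0]
      rfl
    ext x y
    rcases x with i | i <;> rcases y with j | j
    · rw [Matrix.submatrix_apply, e1, e1, Matrix.fromBlocks_apply₁₁, Matrix.submatrix_apply]
    · rw [Matrix.submatrix_apply, e1, e2, Matrix.fromBlocks_apply₁₂, Matrix.submatrix_apply]
    · rw [Matrix.submatrix_apply, e2, e1, Matrix.fromBlocks_apply₂₁, hM, Matrix.zero_apply]
    · rw [Matrix.submatrix_apply, e2, e2, Matrix.fromBlocks_apply₂₂, Matrix.of_apply]
  rw [← h1, h2, Matrix.charpoly_fromBlocks_zero₂₁]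
  congr 1
  rw [Matrix.charpoly, Matrix.det_unique, Matrix.charmatrix_apply_eq, Matrix.of_apply]

variable {p : ℕ} [hp : Fact p.Prime] {K : Type} [Field K] [CharP K p]

theorem mult_small [IsAlgClosed K] (G : K[X]) (hsep : G.Separable) (n : ℕ)
    (hn : G.natDegree = n + 1) (hdeg : n + 1 < p) (m : ℕ) (hG : tw p G m = G) (T : Finset K)
    (hTroot : ∀ r ∈ T, G.IsRoot r)
    (hT : ∀ r, G.IsRoot r → ∃ t ∈ T, ∃ k : ℕ, t ^ ((p ^ m) ^ k) = r) :
    (prodn (ct p G n) m).charpoly.rootMultiplicity 1 + 1 ≤ T.card := by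
  have hG0 : G ≠ 0 := hsep.ne_zero
  have hp1 := hp.out.one_lt
  have h1 := mult_big (p := p) G hsep (by omega) (by omega) m hG T hTroot hT
  rw [hn] at h1
  have htwdeg : ∀ t, (tw p G t ^ (p - 1)).natDegree = (p - 1) * (n + 1) := by
    intro t
    rw [natDegree_pow, tw, natDegree_map, hn]
  have hB : ∀ t j, ct p G (n + 1) t (Fin.last n) (Fin.castSucc j) = 0 := by
    intro t j
    rw [ct, coeff_eq_zero_of_natDegree_lt]
    rw [htwdeg, Fin.val_last, Fin.val_castSucc]
    have hj := j.2
    obtain ⟨q, hq⟩ : ∃ q, p = q + 1 := ⟨p - 1, by omega⟩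
    rw [hq, Nat.add_sub_cancel]
    have : (q + 1) * (n + 1) = q * (n + 1) + (n + 1) := by ring
    omega
  have hlast : ∀ t, ct p G (n + 1) t (Fin.last n) (Fin.last n) =
      (G.leadingCoeff ^ (p ^ t)) ^ (p - 1) := by
    intro t
    have e1 : p * ((Fin.last n : ℕ) + 1) - ((Fin.last n : ℕ) + 1) = (tw p G t ^ (p - 1)).natDegree := by
      rw [htwdeg, Fin.val_last, Nat.sub_mul, one_mul]
    rw [ct, e1, coeff_natDegree, leadingCoeff_pow]
    congr 1
    rw [leadingCoeff, tw, natDegree_map, coeff_map, iterateFrobenius_def]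
    rfl
  obtain ⟨h2, h3, h4⟩ := prodn_block (ct p G (n + 1)) hB m
  rw [charpoly_block _ h2, h3, h4] at h1
  have h5 : ∏ t ∈ Finset.range m, ct p G (n + 1) t (Fin.last n) (Fin.last n) = 1 := by
    have hlc : G.leadingCoeff ^ (p ^ m) = G.leadingCoeff := by
      have := congrArg (fun P => P.coeff G.natDegree) hG
      beta_reduce at this
      rw [coeff_tw] at this
      exact this
    have hlc0 : G.leadingCoeff ≠ 0 := leadingCoeff_ne_zero.2 hG0
    have h6 : ∀ m, G.leadingCoeff * ∏ t ∈ Finset.range m, ct p G (n + 1) t (Fin.last n) (Fin.last n) =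
        G.leadingCoeff ^ (p ^ m) := by
      intro m
      induction m with
      | zero => rw [Finset.prod_range_zero, pow_zero, pow_one, mul_one]
      | succ m ih =>
        rw [Finset.prod_range_succ, ← mul_assoc, ih, hlast, ← pow_succ', ← pow_mul]
        congr 1
        rw [Nat.sub_add_cancel hp1.le, pow_succ]
    have h7 := h6 m
    rw [hlc] at h7
    exact mul_left_cancel₀ hlc0 (by rw [h7, mul_one])
  rw [h5, rootMultiplicity_mul, rootMultiplicity_X_sub_C_self] at h1
  · exact h1
  · exact mul_ne_zero (Matrix.charpoly_monic _).ne_zero (X_sub_C_ne_zero _)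

section factors

variable {k : Type} [Field k] [Finite k]

/-- the elements fixed by the Frobenius -/
theorem mem_range_of_pow (φ : k →+* K) (x : K) (hx : x ^ Nat.card k = x) : ∃ y, φ y = x := by
  classical
  have := Fintype.ofFinite k
  have hq : 1 < Fintype.card k := Fintype.one_lt_card
  by_contra hcon
  push Not at hcon
  have hne : (X ^ Fintype.card k - X : K[X]) ≠ 0 := FiniteField.X_pow_card_sub_X_ne_zero K hq
  have h1 : insert x ((Finset.univ : Finset k).image φ) ⊆
      (X ^ Fintype.card k - X : K[X]).roots.toFinset := by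
    intro y hy
    rw [Multiset.mem_toFinset, mem_roots hne, IsRoot, eval_sub, eval_pow, eval_X, sub_eq_zero]
    rw [Finset.mem_insert, Finset.mem_image] at hy
    rcases hy with rfl | ⟨z, _, rfl⟩
    · rwa [Nat.card_eq_fintype_card] at hx
    · rw [← map_pow, FiniteField.pow_card]
  have h2 := Finset.card_le_card h1
  rw [Finset.card_insert_of_notMem, Finset.card_image_of_injective _ φ.injective,
    Finset.card_univ] at h2
  · have h3 := Multiset.toFinset_card_le (X ^ Fintype.card k - X : K[X]).roots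
    have h4 := card_roots' (X ^ Fintype.card k - X : K[X])
    rw [FiniteField.X_pow_card_sub_X_natDegree_eq K hq] at h4
    omega
  · intro h
    rw [Finset.mem_image] at h
    obtain ⟨z, _, hz⟩ := h
    exact hcon z hz

/-- conjugate roots -/
theorem conj_roots {m : ℕ} (hcard : Nat.card k = p ^ m) (φ : k →+* K) (h : k[X]) (hirr : Irreducible h)
    (t r : K) (ht : (h.map φ).IsRoot t) (hr : (h.map φ).IsRoot r) :
    ∃ i : ℕ, t ^ ((p ^ m) ^ i) = r := by
  classical
  have := Fintype.ofFinite k
  have hh0 : h.map φ ≠ 0 := (Polynomial.map_ne_zero_iff φ.injective).2 hirr.ne_zero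
  set S : Finset K := (h.map φ).roots.toFinset.filter (fun s => ∃ i : ℕ, t ^ ((p ^ m) ^ i) = s) with hS
  have hroot : ∀ s, (h.map φ).IsRoot s → (h.map φ).IsRoot (s ^ (p ^ m)) := by
    intro s hs
    have h1 : ((h.map φ).eval s) ^ (p ^ m) = (h.map φ).eval (s ^ (p ^ m)) := by
      rw [eval_map, eval_map, eval₂_eq_sum_range, eval₂_eq_sum_range, sum_pow_char_pow]
      refine Finset.sum_congr rfl fun i _ => ?_
      rw [mul_pow, ← pow_mul, ← pow_mul, mul_comm i, ← map_pow]
      congr 2
      rw [← hcard, Nat.card_eq_fintype_card, FiniteField.pow_card]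
    rw [IsRoot, ← h1, hs, zero_pow (pow_ne_zero _ hp.out.ne_zero)]
  have hmem : ∀ s, s ∈ S ↔ (h.map φ).IsRoot s ∧ ∃ i : ℕ, t ^ ((p ^ m) ^ i) = s := by
    intro s
    rw [hS, Finset.mem_filter, Multiset.mem_toFinset, mem_roots hh0]
  have hfr : ∀ s ∈ S, s ^ (p ^ m) ∈ S := by
    intro s hs
    rw [hmem] at hs ⊢
    obtain ⟨h1, i, h2⟩ := hs
    refine ⟨hroot s h1, i + 1, ?_⟩
    rw [← h2, pow_succ (p ^ m) i, pow_mul]
  have hinj : ∀ x y : K, x ^ (p ^ m) = y ^ (p ^ m) → x = y := by
    intro x y hxy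
    exact iterateFrobenius_inj K p m (by rw [iterateFrobenius_def, iterateFrobenius_def, hxy])
  have himg : S.image (fun s => s ^ (p ^ m)) = S := by
    refine Finset.eq_of_subset_of_card_le ?_ ?_
    · intro y hy
      rw [Finset.mem_image] at hy
      obtain ⟨s, hs, rfl⟩ := hy
      exact hfr s hs
    · rw [Finset.card_image_of_injective _ (fun x y => hinj x y)]
  set F : K[X] := ∏ s ∈ S, (X - C s) with hF
  have hFt : tw p F m = F := by
    rw [tw, hF, Polynomial.map_prod]
    conv_rhs => rw [← himg]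
    rw [Finset.prod_image (fun x _ y _ => hinj x y)]
    refine Finset.prod_congr rfl fun s _ => ?_
    rw [Polynomial.map_sub, map_X, map_C, iterateFrobenius_def]
  have hlift : ∃ F0 : k[X], F0.map φ = F := by
    rw [← mem_lifts, lifts_iff_coeff_lifts]
    intro j
    have h1 := congrArg (fun P => P.coeff j) hFt
    beta_reduce at h1
    rw [coeff_tw] at h1
    obtain ⟨y, hy⟩ := mem_range_of_pow φ (F.coeff j) (by rw [hcard]; exact h1)
    exact ⟨y, hy⟩
  obtain ⟨F0, hF0⟩ := hlift
  have htS : t ∈ S := by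
    rw [hmem]
    exact ⟨ht, 0, by rw [pow_zero, pow_one]⟩
  have hFt0 : F.eval t = 0 := by
    rw [hF, eval_prod]
    exact Finset.prod_eq_zero htS (by rw [eval_sub, eval_X, eval_C, sub_self])
  have hdvd : h ∣ F0 := by
    by_contra hnd
    obtain ⟨a, b, hab⟩ := (hirr.coprime_iff_not_dvd).2 hnd
    have h1 := congrArg (fun P => (P.map φ).eval t) hab
    beta_reduce at h1
    rw [Polynomial.map_add, Polynomial.map_mul, Polynomial.map_mul, Polynomial.map_one, eval_add,
      eval_mul, eval_mul, eval_one, hF0, hFt0, ht, mul_zero, mul_zero, add_zero] at h1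
    exact zero_ne_one h1
  obtain ⟨c, hc⟩ := hdvd
  have hFr : F.eval r = 0 := by
    rw [← hF0, hc, Polynomial.map_mul, eval_mul, hr, zero_mul]
  rw [hF, eval_prod, Finset.prod_eq_zero_iff] at hFr
  obtain ⟨s, hs, hs0⟩ := hFr
  rw [eval_sub, eval_X, eval_C, sub_eq_zero] at hs0
  rw [hs0]
  exact ((hmem s).1 hs).2

/-- representatives of the orbits of the Frobenius on the roots -/
theorem exists_reps [IsAlgClosed K] [DecidableEq k] {m : ℕ} (hcard : Nat.card k = p ^ m)
    (φ : k →+* K) (G : k[X]) (hG : G ≠ 0) :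
    ∃ T : Finset K, T.card ≤ (UniqueFactorizationMonoid.normalizedFactors G).card ∧
      (∀ r ∈ T, (G.map φ).IsRoot r) ∧
      ∀ r, (G.map φ).IsRoot r → ∃ t ∈ T, ∃ i : ℕ, t ^ ((p ^ m) ^ i) = r := by
  classical
  have h1 : ∀ h : k[X], ∃ t : K, Irreducible h → (h.map φ).IsRoot t := by
    intro h
    by_cases hh : Irreducible h
    · obtain ⟨t, ht⟩ := IsAlgClosed.exists_root (h.map φ) (by
        rw [degree_map]
        exact (degree_pos_of_irreducible hh).ne')
      exact ⟨t, fun _ => ht⟩
    · exact ⟨0, fun h => absurd h hh⟩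
  choose ρ hρ using h1
  refine ⟨(UniqueFactorizationMonoid.normalizedFactors G).toFinset.image ρ, ?_, ?_, ?_⟩
  · exact Finset.card_image_le.trans (Multiset.toFinset_card_le _)
  · intro r hr
    rw [Finset.mem_image] at hr
    obtain ⟨h, hh, rfl⟩ := hr
    rw [Multiset.mem_toFinset] at hh
    have hirr := UniqueFactorizationMonoid.irreducible_of_normalized_factor h hh
    obtain ⟨c, hc⟩ := UniqueFactorizationMonoid.dvd_of_mem_normalizedFactors hh
    rw [hc, Polynomial.map_mul, IsRoot, eval_mul, hρ h hirr, zero_mul]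
  · intro r hr
    obtain ⟨u, hu⟩ := UniqueFactorizationMonoid.prod_normalizedFactors hG
    have h2 : ((UniqueFactorizationMonoid.normalizedFactors G).map
        (fun h => (h.map φ).eval r)).prod = 0 := by
      have h3 := congrArg (fun P => (P.map φ).eval r) hu
      beta_reduce at h3
      rw [Polynomial.map_mul, eval_mul, hr] at h3
      have h4 : ((u : k[X]).map φ).eval r ≠ 0 := by
        have h5 : IsUnit (((u : k[X]).map φ).eval r) := by
          have := u.isUnit.map ((evalRingHom r).comp (mapRingHom φ))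
          exact this
        exact h5.ne_zero
      have h5 := (mul_eq_zero.1 h3).resolve_right h4
      rw [← coe_mapRingHom, map_multiset_prod, ← coe_evalRingHom, map_multiset_prod,
        Multiset.map_map] at h5
      exact h5
    rw [Multiset.prod_eq_zero_iff, Multiset.mem_map] at h2
    obtain ⟨h, hh, hh2⟩ := h2
    have hirr := UniqueFactorizationMonoid.irreducible_of_normalized_factor h hh
    obtain ⟨i, hi⟩ := conj_roots (p := p) hcard φ h hirr (ρ h) r (hρ h hirr) hh2
    exact ⟨ρ h, Finset.mem_image.2 ⟨h, Multiset.mem_toFinset.2 hh, rfl⟩, i, hi⟩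

/-- **the multiplicity of the eigenvalue one is the number of irreducible factors minus one** -/
theorem mult_factors [IsAlgClosed K] [DecidableEq k] {m : ℕ} (hcard : Nat.card k = p ^ m)
    (φ : k →+* K) (G : k[X]) (hsep : G.Separable) (n : ℕ) (hn : G.natDegree = n + 1)
    (hdeg : n + 1 < p) :
    (prodn (ct p (G.map φ) n) m).charpoly.rootMultiplicity 1 + 1 ≤
      (UniqueFactorizationMonoid.normalizedFactors G).card := by
  have := Fintype.ofFinite k
  obtain ⟨T, h1, h2, h3⟩ := exists_reps (p := p) hcard φ G hsep.ne_zero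
  refine (mult_small (p := p) (G.map φ) hsep.map n (by rw [natDegree_map, hn]) hdeg m ?_ T h2 h3).trans
    h1
  ext j
  rw [coeff_tw, coeff_map, ← map_pow, ← hcard, Nat.card_eq_fintype_card, FiniteField.pow_card]

end factors

end Pool.Agent.H856.DW
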