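import Pool.Agent.H856.DW.Spec
import Pool.Agent.H856.DW.HW3

set_option autoImplicit false
set_option linter.unusedSectionVars false
set_option linter.unusedVariables false

/-!
# The level blocks of the Frobenius matrices in two variables
-/

namespace Pool.Agent.H856.DW

open Pool.Agent.H425 MvPolynomial

/-- exponents in two variables -/
noncomputable def pt (a c : ℕ) : Fin 2 →₀ ℕ := Finsupp.equivFunOnFinite.symm ![a, c]

theorem pt_zero (a c : ℕ) : pt a c 0 = a := rfl

theorem pt_one (a c : ℕ) : pt a c 1 = c := rfl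

theorem degree_two (s : Fin 2 →₀ ℕ) : s.degree = s 0 + s 1 := by
  rw [Finsupp.degree_eq_sum, Fin.sum_univ_two]

theorem eq_pt (s : Fin 2 →₀ ℕ) : s = pt (s 0) (s 1) := by
  ext i
  fin_cases i
  · rfl
  · rfl

section uni

variable {K : Type} [Field K]

/-- the dehomogenization -/
noncomputable def uni (P : MvPolynomial (Fin 2) K) : Polynomial K :=
  MvPolynomial.aeval ![Polynomial.X, 1] P

theorem uni_pow (P : MvPolynomial (Fin 2) K) (j : ℕ) : uni (P ^ j) = uni P ^ j := map_pow _ _ _

theorem uni_monomial (s : Fin 2 →₀ ℕ) (c : K) :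
    uni (monomial s c) = Polynomial.C c * Polynomial.X ^ (s 0) := by
  rw [uni, aeval_monomial, Finsupp.prod_fintype _ _ (fun i => pow_zero _), Fin.prod_univ_two]
  simp

theorem coeff_uni {P : MvPolynomial (Fin 2) K} {D : ℕ} (hP : P.IsHomogeneous D) (a c : ℕ)
    (hac : a + c = D) : (uni P).coeff a = coeff (pt a c) P := by
  classical
  have h1 : uni P = ∑ s ∈ P.support, uni (monomial s (coeff s P)) := by
    conv_lhs => rw [P.as_sum]
    rw [uni, map_sum]
    rfl
  rw [h1, Polynomial.finsetSum_coeff]
  have h2 : ∀ s ∈ P.support, (uni (monomial s (coeff s P))).coeff a =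
      if s = pt a c then coeff s P else 0 := by
    intro s hs
    rw [uni_monomial, Polynomial.coeff_C_mul_X_pow]
    have hdeg : s.degree = D := by
      by_contra hne
      exact (mem_support_iff.1 hs) (hP.coeff_eq_zero hne)
    rw [degree_two] at hdeg
    by_cases h : a = s 0
    · rw [if_pos h, if_pos]
      rw [eq_pt s, ← h]
      congr 1
      omega
    · rw [if_neg h, if_neg]
      intro h3
      apply h
      rw [h3, pt_zero]
  rw [Finset.sum_congr rfl h2, Finset.sum_ite_eq']
  split_ifs with h
  · rfl
  · rw [notMem_support_iff] at h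
    exact h.symm

/-- the leading form, dehomogenized -/
noncomputable def lp (d : ℕ) (f : MvPolynomial (Fin 2) K) : Polynomial K :=
  uni (homogeneousComponent d f)

theorem coeff_lp (d : ℕ) (f : MvPolynomial (Fin 2) K) (a c : ℕ) (h : a + c = d) :
    (lp d f).coeff a = coeff (pt a c) f := by
  rw [lp, coeff_uni (homogeneousComponent_isHomogeneous d f) a c h, coeff_homogeneousComponent,
    if_pos]
  rw [degree_two, pt_zero, pt_one, h]

theorem coeff_lp_high (d : ℕ) (f : MvPolynomial (Fin 2) K) (a : ℕ) (h : d < a) :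
    (lp d f).coeff a = 0 := by
  classical
  have h1 : lp d f = ∑ s ∈ (homogeneousComponent d f).support,
      uni (monomial s (coeff s (homogeneousComponent d f))) := by
    rw [lp]
    conv_lhs => rw [(homogeneousComponent d f).as_sum]
    rw [uni, map_sum]
    rfl
  rw [h1, Polynomial.finsetSum_coeff]
  refine Finset.sum_eq_zero fun s hs => ?_
  have hdeg : s.degree = d := by
    by_contra hne
    exact (mem_support_iff.1 hs) ((homogeneousComponent_isHomogeneous d f).coeff_eq_zero hne)
  rw [degree_two] at hdeg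
  rw [uni_monomial, Polynomial.coeff_C_mul_X_pow, if_neg (by omega)]

end uni

namespace S0

variable {p d : ℕ} [hp : Fact p.Prime] {K R : Type} [Field K] [CommRing R] [IsDomain R]
  {S : Setup p d K R} [CharP K p]

theorem coeff_topForm (hd : 0 < d) (f : MvPolynomial (Fin 2) K) (t : ℕ) (s : Fin 2 →₀ ℕ)
    (hs : s.degree = d) :
    coeff s (topForm d (Setup.su f) (fun s => S.res (S.tc f t s))) = coeff s f ^ (p ^ t) := by
  classical
  rw [topForm, coeff_sum]
  have h1 : ∀ s' ∈ Setup.su f, coeff s (if s'.degree = d then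
      monomial s' (S.res (S.tc f t s')) else (0 : MvPolynomial (Fin 2) K)) =
      if s' = s then coeff s f ^ (p ^ t) else 0 := by
    intro s' _
    by_cases h : s' = s
    · subst h
      rw [if_pos rfl, if_pos hs, coeff_monomial, if_pos rfl, Setup.tc, map_pow, S.res_tau]
    · rw [if_neg h]
      split_ifs
      · rw [coeff_monomial, if_neg h]
      · rw [coeff_zero]
  rw [Finset.sum_congr rfl h1, Finset.sum_ite_eq']
  split_ifs with h
  · rfl
  · rw [Setup.su, Finset.mem_erase, not_and_or, not_ne_iff] at h
    rcases h with rfl | h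
    · rw [map_zero] at hs
      omega
    · rw [notMem_support_iff] at h
      rw [h, zero_pow (pow_ne_zero _ hp.out.ne_zero)]

theorem uni_topForm (hd : 0 < d) (f : MvPolynomial (Fin 2) K) (t : ℕ) :
    uni (topForm d (Setup.su f) (fun s => S.res (S.tc f t s))) = tw p (lp d f) t := by
  ext a
  rw [coeff_tw]
  by_cases h : a ≤ d
  · rw [coeff_uni (topForm_homog d _ _) a (d - a) (by omega), coeff_topForm hd f t _ (by
      rw [degree_two, pt_zero, pt_one]; omega), coeff_lp d f a (d - a) (by omega)]
  · rw [coeff_lp_high d f a (by omega), zero_pow (pow_ne_zero _ hp.out.ne_zero)]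
    have h1 : topForm d (Setup.su f) (fun s => S.res (S.tc f t s)) =
        homogeneousComponent d (topForm d (Setup.su f) (fun s => S.res (S.tc f t s))) := by
      have h2 := homogeneousComponent_of_mem (m := d) (n := d)
        ((mem_homogeneousSubmodule _ _).2 (topForm_homog d (Setup.su f)
          (fun s => S.res (S.tc f t s))))
      rw [if_pos rfl] at h2
      exact h2.symm
    rw [h1]
    exact coeff_lp_high d _ a (by omega)

/-- the Hasse-Witt entries inside a level -/
theorem hw_level (hd : 0 < d) (hdp : d ∣ p - 1) (f : MvPolynomial (Fin 2) K) (t : ℕ)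
    (V U : Fin 2 →₀ ℕ) (w : ℕ) (hV : V.degree = w) (hU : U.degree = w) (hle : U ≤ p • V) :
    hw S f t V U = ((((p - 1) * w / d).factorial : ℕ) : K)⁻¹ *
      (tw p (lp d f) t ^ ((p - 1) * w / d)).coeff (p * V 0 - U 0) := by
  have hp1 := hp.out.one_lt
  have hdeg : (p • V - U).degree = (p - 1) * w := by
    have h1 : (p • V - U).degree + U.degree = p * V.degree := by
      rw [← map_add, tsub_add_cancel_of_le hle, map_nsmul, smul_eq_mul]
    rw [hV, hU] at h1
    rw [Nat.sub_mul, one_mul]
    omega
  have hdw : d ∣ (p - 1) * w := Dvd.dvd.mul_right hdp w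
  rw [hw, if_pos hle, lead, hdeg, if_pos hdw]
  congr 1
  set j := (p - 1) * w / d with hj
  have hjd : d * j = (p - 1) * w := Nat.mul_div_cancel' hdw
  rw [← uni_topForm (S := S) hd f t, ← uni_pow,
    coeff_uni ((topForm_homog d _ _).pow j) (p * V 0 - U 0) (p * V 1 - U 1)]
  · congr 1
    rw [eq_pt (p • V - U)]
    rfl
  · rw [hjd, ← hdeg, degree_two]
    rfl

/-- entries between different levels vanish -/
theorem hw_off (hd : 0 < d) (hdp : d ∣ p - 1) (f : MvPolynomial (Fin 2) K) (t : ℕ)
    (V U : Fin 2 →₀ ℕ) (hV : V.degree ≤ d) (hU : U.degree ≤ d) (hV0 : 0 < V.degree)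
    (hU0 : 0 < U.degree) (hne : V.degree ≠ U.degree) : hw S f t V U = 0 := by
  have hp1 := hp.out.one_lt
  rw [hw]
  split_ifs with hle
  · rw [lead, if_neg]
    intro hdvd
    have h1 : (p • V - U).degree + U.degree = p * V.degree := by
      rw [← map_add, tsub_add_cancel_of_le hle, map_nsmul, smul_eq_mul]
    obtain ⟨c, hc⟩ := hdp
    have hpc : p = d * c + 1 := by omega
    obtain ⟨b, hb⟩ := hdvd
    rw [hb, hpc] at h1
    have h2 : (d * c + 1) * V.degree = d * (c * V.degree) + V.degree := by ring
    rw [h2] at h1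
    have h3 : V.degree ≡ U.degree [MOD d] := by
      have h4 : (d * (c * V.degree) + V.degree) % d = (d * b + U.degree) % d := by rw [h1]
      rw [Nat.mul_add_mod, Nat.mul_add_mod] at h4
      exact h4
    apply hne
    rcases Nat.lt_or_ge V.degree d with h5 | h5
    · rcases Nat.lt_or_ge U.degree d with h6 | h6
      · rw [Nat.ModEq, Nat.mod_eq_of_lt h5, Nat.mod_eq_of_lt h6] at h3
        exact h3
      · have h7 : U.degree = d := le_antisymm hU h6
        rw [Nat.ModEq, h7, Nat.mod_self, Nat.mod_eq_of_lt h5] at h3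
        omega
    · have h7 : V.degree = d := le_antisymm hV h5
      rcases Nat.lt_or_ge U.degree d with h6 | h6
      · rw [Nat.ModEq, h7, Nat.mod_self, Nat.mod_eq_of_lt h6] at h3
        omega
      · omega
  · rfl

end S0

/-- the Hasse-Witt matrices -/
noncomputable def hwm {K : Type} [Field K] (p d : ℕ) (G : Polynomial K) (w : ℕ) :
    Matrix (Fin (w - 1)) (Fin (w - 1)) K :=
  fun i j => (G ^ ((p - 1) * w / d)).coeff (p * (i + 1) - (j + 1))

end Pool.Agent.H856.DW
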