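import Pool.Agent.H856.DW.Lev

set_option autoImplicit false
set_option linter.unusedSectionVars false
set_option linter.unusedVariables false

/-!
# The middle slope of the Frobenius matrix of an Artin-Schreier surface
-/

namespace Pool.Agent.H856.DW

open Pool.Agent.H425 Polynomial

namespace S0

variable {p d : ℕ} [hp : Fact p.Prime] {K R : Type} [Field K] [CommRing R] [IsDomain R]
  {S : Setup p d K R} [CharP K p] {N : ℕ} {f : MvPolynomial (Fin 2) K} {e : ℕ}
  {b : (Fin 2 → Fin e) → (Fin 2 →₀ ℕ)}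

/-- the level of an index -/
def lv (d : ℕ) {e : ℕ} (u : Fin 2 → Fin e) : ℕ := min (∑ i, (u i : ℕ) + 2) (d + 1)

/-- the residues -/
noncomputable def Hm (S : Setup p d K R) (f : MvPolynomial (Fin 2) K) {e : ℕ}
    (b : (Fin 2 → Fin e) → (Fin 2 →₀ ℕ)) (t : ℕ) :
    Matrix (Fin 2 → Fin e) (Fin 2 → Fin e) K :=
  fun i j => if ∑ l, (i l : ℕ) + 2 ≤ d then
    hw S f t (b i + oneA Finset.univ) (b j + oneA Finset.univ) else 0

theorem exists_z (D : S.BD N f e b) (hpd : 2 * d + 3 < p) (t : ℕ) (i j : Fin 2 → Fin e) :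
    ∃ z : R, Setup.Bt D t i j = S.rd N (S.lam ^ ((p - 1) * min (lv d i) d) * z) ∧
      S.res z = Hm S f b t i j := by
  have hc : Fintype.card (Fin 2) = 2 := Fintype.card_fin 2
  by_cases h : ∑ l, (i l : ℕ) + 2 ≤ d
  · obtain ⟨z, h1, h2⟩ := Bt_low D (by rw [hc]) hpd t i j (by rw [hc]; exact h)
    refine ⟨z, ?_, ?_⟩
    · rw [h1, hc]
      congr 3
      rw [lv, min_eq_left (by omega : ∑ l, (i l : ℕ) + 2 ≤ d + 1), min_eq_left h]
    · rw [h2, Hm, if_pos h]
  · obtain ⟨z, h1, h2⟩ := Bt_high D hpd t i j (by rw [hc]; omega)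
    refine ⟨z, ?_, ?_⟩
    · rw [h1]
      congr 3
      rw [lv, min_eq_right (by omega : d + 1 ≤ ∑ l, (i l : ℕ) + 2), min_eq_right (by omega)]
    · rw [h2, Hm, if_neg h]

theorem deg_b1 (D : S.BD N f e b) (i : Fin 2 → Fin e) :
    (b i + oneA (Finset.univ : Finset (Fin 2))).degree = ∑ l, (i l : ℕ) + 2 := by
  rw [map_add, degree_oneA, Finset.card_univ, Fintype.card_fin, (D.hY 0).hb i]

theorem Hm_off (D : S.BD N f e b) (hdp : d ∣ p - 1) (t : ℕ) (i j : Fin 2 → Fin e)
    (h : lv d j < lv d i) : Hm S f b t i j = 0 := by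
  have hde := D.hde
  rw [Hm]
  split_ifs with h1
  · rw [lv, lv, min_eq_left (by omega : ∑ l, (i l : ℕ) + 2 ≤ d + 1)] at h
    have h2 : ∑ l, (j l : ℕ) + 2 < ∑ l, (i l : ℕ) + 2 := by
      rcases min_lt_iff.1 h with h3 | h3
      · exact h3
      · omega
    refine hw_off (by omega) hdp f t _ _ ?_ ?_ ?_ ?_ ?_
    · rw [deg_b1 D]; exact h1
    · rw [deg_b1 D]; omega
    · rw [deg_b1 D]; omega
    · rw [deg_b1 D]; omega
    · rw [deg_b1 D, deg_b1 D]; omega
  · rfl

theorem Hm_high (t : ℕ) (i j : Fin 2 → Fin e) (h : d < lv d i) : Hm S f b t i j = 0 := by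
  rw [Hm, if_neg]
  intro h1
  rw [lv, min_eq_left (by omega : ∑ l, (i l : ℕ) + 2 ≤ d + 1)] at h
  omega

theorem lv_eq {k : ℕ} (hk : k ≤ d) {i : Fin 2 → Fin e} (h : lv d i = k) :
    ∑ l, (i l : ℕ) + 2 = k := by
  rw [lv] at h
  rcases min_choice (∑ l, (i l : ℕ) + 2) (d + 1) with h1 | h1
  · rw [h1] at h; exact h
  · rw [h1] at h; omega

/-- the numbering of the indices of one level -/
theorem exists_level (D : S.BD N f e b) (k : ℕ) (hk : k ≤ d) :
    ∃ σ : {i : Fin 2 → Fin e // lv d i = k} ≃ Fin (k - 1), ∀ i, (σ i : ℕ) = b i.1 0 := by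
  have hnt : Nontrivial (S.Q N) := nontrivial_Q D.hN
  have hde := D.hde
  have hdeg : ∀ i : {i : Fin 2 → Fin e // lv d i = k}, b i.1 0 + b i.1 1 + 2 = k := by
    intro i
    have h1 := lv_eq hk i.2
    have h2 := (D.hY 0).hb i.1
    rw [degree_two] at h2
    omega
  let s : {i : Fin 2 → Fin e // lv d i = k} → Fin (k - 1) := fun i => ⟨b i.1 0, by
    have := hdeg i
    omega⟩
  have hs : Function.Bijective s := by
    constructor
    · intro i j hij
      have h1 : b i.1 0 = b j.1 0 := congrArg Fin.val hij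
      have h2 := hdeg i
      have h3 := hdeg j
      apply Subtype.ext
      apply b_inj D
      rw [eq_pt (b i.1), eq_pt (b j.1), h1]
      congr 1
      omega
    · intro a
      have ha := a.2
      obtain ⟨u, hu⟩ := b_surj D (pt a (k - 2 - a)) (by
        rw [degree_two, pt_zero, pt_one]
        omega)
      have h1 := (D.hY 0).hb u
      rw [hu, degree_two, pt_zero, pt_one] at h1
      refine ⟨⟨u, ?_⟩, ?_⟩
      · rw [lv, min_eq_left]
        · omega
        · omega
      · apply Fin.ext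
        change b u 0 = a
        rw [hu, pt_zero]
  exact ⟨Equiv.ofBijective s hs, fun i => rfl⟩

/-- the entries of one level -/
theorem Hm_level (D : S.BD N f e b) (hpd : 2 * d + 3 < p) (hdp : d ∣ p - 1) (k : ℕ) (hk : k ≤ d)
    (σ : {i : Fin 2 → Fin e // lv d i = k} ≃ Fin (k - 1)) (hσ : ∀ i, (σ i : ℕ) = b i.1 0) (t : ℕ) :
    (Hm S f b t).submatrix (Subtype.val : {i : Fin 2 → Fin e // lv d i = k} → _) Subtype.val =
      ((((((p - 1) * k / d).factorial : ℕ) : K)⁻¹ •
        (hwm p d (lp d f) k).map (iterateFrobenius K p t))).submatrix σ σ := by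
  have hde := D.hde
  have hp1 := hp.out.one_lt
  ext i j
  rw [Matrix.submatrix_apply, Matrix.submatrix_apply, Matrix.smul_apply, Matrix.map_apply, Hm,
    if_pos (by rw [lv_eq hk i.2]; exact hk), smul_eq_mul]
  have hle : b j.1 + oneA (Finset.univ : Finset (Fin 2)) ≤
      p • (b i.1 + oneA (Finset.univ : Finset (Fin 2))) := by
    intro l
    have h1 : (b j.1 + oneA (Finset.univ : Finset (Fin 2))) l ≤
        (b j.1 + oneA (Finset.univ : Finset (Fin 2))).degree := coord_le_degree _ l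
    rw [deg_b1 D, lv_eq hk j.2] at h1
    have h2 : 1 ≤ (b i.1 + oneA (Finset.univ : Finset (Fin 2))) l := by
      rw [Finsupp.add_apply, oneA_apply, if_pos (Finset.mem_univ l)]
      omega
    rw [Finsupp.smul_apply, smul_eq_mul]
    nlinarith
  rw [hw_level (by omega) hdp f t _ _ k (by rw [deg_b1 D, lv_eq hk i.2])
    (by rw [deg_b1 D, lv_eq hk j.2]) hle]
  congr 1
  rw [hwm, iterateFrobenius_def, ← coeff_tw, tw_pow, hσ, hσ]
  congr 2

theorem wilson : (((p - 1).factorial : ℕ) : K) = -1 := by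
  have h1 := ZMod.wilsons_lemma p
  have h2 := congrArg (ZMod.castHom (dvd_refl p) K) h1
  rw [map_natCast, map_neg, map_one] at h2
  exact h2

theorem prodn_reindex {A I J : Type} [CommRing A] [Fintype I] [DecidableEq I] [Fintype J]
    [DecidableEq J] (σ : I ≃ J) (B : ℕ → Matrix J J A) (m : ℕ) :
    prodn (fun t => (B t).submatrix σ σ) m = (prodn B m).submatrix σ σ := by
  induction m with
  | zero => exact (Matrix.submatrix_one_equiv σ).symm
  | succ m ih => rw [prodn, prodn, ih, Matrix.submatrix_mul_equiv]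

/-- the exponent of the leading term -/
def Ex (p d e m : ℕ) : ℕ := ∑ x : Fin (m + 1) × (Fin 2 → Fin e), (p - 1) * min (lv d x.2) d

/-- **the leading term at slope one** -/
theorem loc (D : S.BD N f e b) (hpd : 2 * d + 3 < p) (hdp : d ∣ p - 1) (m : ℕ)
    (hdet : ∀ w, w < d → (hwm p d (lp d f) w).det ≠ 0) :
    ∃ (M : Matrix (Fin 2 → Fin e) (Fin 2 → Fin e) R) (G : R[X]) (u : K) (r : ℕ), u ≠ 0 ∧
      M.map (S.rd N) = prodn (Setup.Bt D) (m + 1) ∧
      M.charpoly.comp (C ((p : R) ^ (m + 1)) * X) = C (S.lam ^ Ex p d e m) * G ∧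
      G.map S.res = C u * X ^ r * (prodn (ct p (lp d f) (d - 1)) (m + 1)).charpoly := by
  have hde := D.hde
  have hp1 := hp.out.one_lt
  have hd : 0 < d := by omega
  choose z hz1 hz2 using exists_z D hpd
  obtain ⟨G, u, r, hu, h1, h2⟩ := spec S hd m (lv d) z (Hm S f b) hz2
    (fun t i j => Hm_off D hdp t i j) (fun t i j => Hm_high t i j) (by
      intro k hk t
      obtain ⟨σ, hσ⟩ := exists_level D k hk.le
      rw [Hm_level D hpd hdp k hk.le σ hσ t, Matrix.det_submatrix_equiv_self, Matrix.det_smul]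
      refine mul_ne_zero (pow_ne_zero _ (inv_ne_zero ?_)) ?_
      · refine fac_ne hp.out ?_
        have h3 : (p - 1) * k / d ≤ (p - 1) * d / d :=
          Nat.div_le_div_right (Nat.mul_le_mul_left _ hk.le)
        rw [Nat.mul_div_cancel _ hd] at h3
        omega
      · have h3 := RingHom.map_det (iterateFrobenius K p t) (hwm p d (lp d f) k)
        rw [RingHom.mapMatrix_apply] at h3
        rw [← h3, iterateFrobenius_def]
        exact pow_ne_zero _ (hdet k hk))
  refine ⟨prodn (scl S (lv d) z) (m + 1), G, u, r, hu, ?_, h1, ?_⟩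
  · rw [← prodn_map]
    congr 1
    funext t
    ext i j
    rw [Matrix.map_apply, hz1]
    rfl
  · rw [h2]
    congr 1
    obtain ⟨σ, hσ⟩ := exists_level D d le_rfl
    have h3 : (fun t => -(Hm S f b t).submatrix (Subtype.val : {i : Fin 2 → Fin e // lv d i = d} → _)
        Subtype.val) = fun t => (ct p (lp d f) (d - 1) t).submatrix σ σ := by
      funext t
      rw [Hm_level D hpd hdp d le_rfl σ hσ t]
      ext i j
      rw [Matrix.neg_apply, Matrix.submatrix_apply, Matrix.submatrix_apply, Matrix.smul_apply,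
        Matrix.map_apply, Nat.mul_div_cancel _ hd, wilson, smul_eq_mul, inv_neg, inv_one,
        neg_mul, one_mul, neg_neg, hwm, iterateFrobenius_def, ← coeff_tw, tw_pow,
        Nat.mul_div_cancel _ hd, ct]
    rw [h3, prodn_reindex]
    have h4 := Matrix.charpoly_reindex σ.symm (prodn (ct p (lp d f) (d - 1)) (m + 1))
    rw [Matrix.reindex_apply, Equiv.symm_symm] at h4
    exact h4

end S0

end Pool.Agent.H856.DW
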