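import Pool.Agent.H856.DW.Lev

set_option autoImplicit false
set_option linter.unusedSectionVars false
set_option linter.unusedVariables false

/-!
# Binary forms without multiple factors
-/

namespace Pool.Agent.H856.DW

open Pool.Agent.H425 MvPolynomial

variable {K : Type} [Field K]

theorem eval_two (P : MvPolynomial (Fin 2) K) (x : Fin 2 → K) :
    eval x P = ∑ s ∈ P.support, coeff s P * (x 0 ^ s 0 * x 1 ^ s 1) := by
  rw [eval_eq']
  refine Finset.sum_congr rfl fun s _ => ?_
  rw [Fin.prod_univ_two]

theorem uni_sum (P : MvPolynomial (Fin 2) K) :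
    uni P = ∑ s ∈ P.support, Polynomial.C (coeff s P) * Polynomial.X ^ (s 0) := by
  conv_lhs => rw [P.as_sum]
  rw [uni, map_sum]
  exact Finset.sum_congr rfl fun s _ => uni_monomial s _

/-- values of forms -/
theorem eval_homog {P : MvPolynomial (Fin 2) K} {D : ℕ} (hP : P.IsHomogeneous D) (x : Fin 2 → K)
    (hx : x 1 ≠ 0) : eval x P = x 1 ^ D * (uni P).eval (x 0 / x 1) := by
  rw [eval_two, uni_sum, Polynomial.eval_finsetSum, Finset.mul_sum]
  refine Finset.sum_congr rfl fun s hs => ?_
  have hdeg : s 0 + s 1 = D := by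
    rw [← degree_two]
    by_contra hne
    exact (mem_support_iff.1 hs) (hP.coeff_eq_zero hne)
  rw [Polynomial.eval_mul, Polynomial.eval_C, Polynomial.eval_pow, Polynomial.eval_X, div_pow,
    ← hdeg, pow_add]
  field_simp

theorem eval_homog_zero {P : MvPolynomial (Fin 2) K} {D : ℕ} (hP : P.IsHomogeneous D) (x : Fin 2 → K)
    (hx : x 1 = 0) : eval x P = coeff (pt D 0) P * x 0 ^ D := by
  classical
  rw [eval_two]
  have h1 : ∀ s ∈ P.support, coeff s P * (x 0 ^ s 0 * x 1 ^ s 1) =
      if s = pt D 0 then coeff s P * x 0 ^ D else 0 := by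
    intro s hs
    have hdeg : s 0 + s 1 = D := by
      rw [← degree_two]
      by_contra hne
      exact (mem_support_iff.1 hs) (hP.coeff_eq_zero hne)
    by_cases h : s 1 = 0
    · have h2 : s = pt D 0 := by
        rw [eq_pt s, h]
        congr 1
        omega
      rw [if_pos h2, h, pow_zero, mul_one]
      congr 2
      omega
    · rw [if_neg, hx, zero_pow h, mul_zero, mul_zero]
      rintro rfl
      exact h rfl
  rw [Finset.sum_congr rfl h1, Finset.sum_ite_eq']
  split_ifs with h
  · rfl
  · rw [notMem_support_iff] at h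
    rw [h, zero_mul]

theorem uni_pderiv (P : MvPolynomial (Fin 2) K) :
    uni (pderiv 0 P) = Polynomial.derivative (uni P) := by
  induction P using MvPolynomial.induction_on' with
  | add P Q hP hQ => rw [map_add, uni, map_add, ← uni, ← uni, hP, hQ, uni, uni, uni, map_add, map_add]
  | monomial s a =>
    rw [pderiv_monomial, uni_monomial, uni_monomial, Polynomial.derivative_C_mul_X_pow,
      Finsupp.tsub_apply, Finsupp.single_eq_same]

/-- a binary form with different roots is nondegenerate -/
theorem smooth (d : ℕ) (hd : 2 ≤ d) (hdK : (d : K) ≠ 0) (f : MvPolynomial (Fin 2) K)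
    (hdeg : (lp d f).coeff d ≠ 0) (h0 : (lp d f).coeff 0 ≠ 0) (hsep : (lp d f).Separable)
    (x : Fin 2 → K) (hx : ∀ i, x i * eval x (pderiv i (homogeneousComponent d f)) = 0) : x = 0 := by
  set g := homogeneousComponent d f with hg
  have hghom : g.IsHomogeneous d := homogeneousComponent_isHomogeneous d f
  have hlp : lp d f = uni g := rfl
  have heuler := congrArg (eval x) hghom.sum_X_mul_pderiv
  rw [map_sum, Fin.sum_univ_two, map_mul, map_mul, eval_X, eval_X, hx 0, hx 1, add_zero,
    nsmul_eq_mul, map_mul, map_natCast] at heuler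
  have hgx : eval x g = 0 := (mul_eq_zero.1 heuler.symm).resolve_left hdK
  by_cases h1 : x 1 = 0
  · rw [eval_homog_zero hghom x h1] at hgx
    have h2 : coeff (pt d 0) g ≠ 0 := by
      rw [← coeff_uni hghom d 0 (by omega), ← hlp]
      exact hdeg
    have h3 := (mul_eq_zero.1 hgx).resolve_left h2
    have h4 : x 0 = 0 := pow_eq_zero_iff (by omega : d ≠ 0) |>.1 h3
    funext i
    fin_cases i
    · exact h4
    · exact h1
  · exfalso
    rw [eval_homog hghom x h1, ← hlp] at hgx
    have hr := (mul_eq_zero.1 hgx).resolve_left (pow_ne_zero _ h1)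
    have hx0 : x 0 ≠ 0 := by
      intro h
      rw [h, zero_div, ← Polynomial.coeff_zero_eq_eval_zero] at hr
      exact h0 hr
    have h3 := (mul_eq_zero.1 (hx 0)).resolve_left hx0
    rw [eval_homog (hghom.pderiv) x h1, uni_pderiv, ← hlp] at h3
    have h4 := (mul_eq_zero.1 h3).resolve_left (pow_ne_zero _ h1)
    exact hsep.eval₂_derivative_ne_zero (RingHom.id K) hr h4

end Pool.Agent.H856.DW
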