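import Pool.Agent.H856.DW.Roots
import Pool.Agent.H856.DW.Smooth
import Pool.Agent.H856.DW.Count

set_option autoImplicit false
set_option linter.unusedSectionVars false
set_option linter.unusedVariables false

/-!
# The multiplicity of `q` for Artin-Schreier surfaces over one finite field
-/

namespace Pool.Agent.H856.DW

open Pool.Agent.H425 Polynomial

theorem lp_map {k K : Type} [Field k] [Field K] (φ : k →+* K) (d : ℕ) (f : MvPolynomial (Fin 2) k) :
    lp d (MvPolynomial.map φ f) = (lp d f).map φ := by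
  ext a
  rw [coeff_map]
  by_cases h : a ≤ d
  · rw [coeff_lp d _ a (d - a) (by omega), coeff_lp d _ a (d - a) (by omega),
      MvPolynomial.coeff_map]
  · rw [coeff_lp_high d _ a (by omega), coeff_lp_high d _ a (by omega), map_zero]

theorem hwm_map {k K : Type} [Field k] [Field K] (φ : k →+* K) (p d : ℕ) (G : k[X]) (w : ℕ) :
    hwm p d (G.map φ) w = (hwm p d G w).map φ := by
  ext i j
  rw [Matrix.map_apply, hwm, hwm, ← Polynomial.map_pow, coeff_map]

theorem hwm_det_map {k K : Type} [Field k] [Field K] (φ : k →+* K) (p d : ℕ) (G : k[X]) (w : ℕ)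
    (h : (hwm p d G w).det ≠ 0) : (hwm p d (G.map φ) w).det ≠ 0 := by
  rw [hwm_map]
  have h1 := RingHom.map_det φ (hwm p d G w)
  rw [RingHom.mapMatrix_apply] at h1
  rw [← h1]
  exact (_root_.map_ne_zero φ).2 h

theorem hwm_small {K : Type} [Field K] (p d : ℕ) (G : K[X]) (w : ℕ) (hw : w < 2) :
    (hwm p d G w).det ≠ 0 := by
  have : IsEmpty (Fin (w - 1)) := by
    have : w - 1 = 0 := by omega
    rw [this]
    infer_instance
  rw [Matrix.det_isEmpty]
  exact one_ne_zero

theorem totalDegree_eq {K : Type} [Field K] (d : ℕ) (f : MvPolynomial (Fin 2) K)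
    (hf : f.totalDegree ≤ d) (h : (lp d f).coeff d ≠ 0) : f.totalDegree = d := by
  refine le_antisymm hf ?_
  rw [coeff_lp d f d 0 (by omega)] at h
  have h1 := MvPolynomial.le_totalDegree (MvPolynomial.mem_support_iff.2 h)
  rw [Finsupp.sum_fintype _ _ (fun _ => rfl), Fin.sum_univ_two, pt_zero, pt_one, add_zero] at h1
  exact h1

theorem totalDegree_map_le' {k K : Type} [Field k] [Field K] (φ : k →+* K)
    (f : MvPolynomial (Fin 2) k) : (MvPolynomial.map φ f).totalDegree ≤ f.totalDegree := by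
  unfold MvPolynomial.totalDegree
  exact Finset.sup_mono (MvPolynomial.support_map_subset φ f)

/-- **the spectrum and the multiplicity of `q`**, with a given cyclotomic field -/
theorem main_aux (p : ℕ) [hp : Fact p.Prime] (F : Type) [Field F] [Algebra ℚ F]
    [IsCyclotomicExtension {p} ℚ F] {k : Type} [Field k] [Finite k] [CharP k p] (d : ℕ)
    (hd : 2 ≤ d) (hdp : d ∣ p - 1) (hpd : 2 * d + 3 < p) (f : MvPolynomial (Fin 2) k)
    (hf : f.totalDegree ≤ d) (hdeg : (lp d f).coeff d ≠ 0) (h0 : (lp d f).coeff 0 ≠ 0)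
    (hsep : (lp d f).Separable)
    (hord : ∀ w, 2 ≤ w → w < d → (hwm p d (lp d f) w).det ≠ 0) [DecidableEq ℂ] :
    ∃ Γ : Multiset ℂ, Γ.card = (p - 1) * (d - 1) ^ 2 ∧
      (∀ (L : Type) [Field L] [Finite L] [Algebra k L],
        (Nat.card {P : (Fin 2 → L) × L // P.2 ^ p - P.2 = MvPolynomial.aeval P.1 f} : ℂ) =
          (Nat.card L : ℂ) ^ 2 + (Γ.map (fun γ => γ ^ Module.finrank k L)).sum) ∧
      Γ.count (Nat.card k : ℂ) ≤
        (p - 1) * (Multiset.card (UniqueFactorizationMonoid.factors (lp d f)) - 1) := by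
  classical
  have := Fintype.ofFinite k
  let K := AlgebraicClosure k
  have hKp : CharP K p := charP_of_injective_algebraMap (algebraMap k K).injective p
  have hp1 := hp.out.one_lt
  -- the cardinality of `k`
  obtain ⟨m, hm⟩ : ∃ m : ℕ, Nat.card k = p ^ (m + 1) := by
    obtain ⟨n, hn1, hn2⟩ := FiniteField.card k p
    refine ⟨n - 1, ?_⟩
    rw [Nat.card_eq_fintype_card, hn2]
    congr 1
    have := n.2
    have : (n : ℕ) - 1 + 1 = n := Nat.sub_add_cancel n.2
    omega
  set fK := MvPolynomial.map (algebraMap k K) f with hfK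
  have hfKdeg : fK.totalDegree ≤ d := (totalDegree_map_le' _ f).trans hf
  have hlp : lp d fK = (lp d f).map (algebraMap k K) := lp_map _ d f
  have hdegK : (lp d fK).coeff d ≠ 0 := by
    rw [hlp, coeff_map]
    exact (_root_.map_ne_zero _).2 hdeg
  have h0K : (lp d fK).coeff 0 ≠ 0 := by
    rw [hlp, coeff_map]
    exact (_root_.map_ne_zero _).2 h0
  have hsepK : (lp d fK).Separable := by
    rw [hlp]
    exact hsep.map
  have hordK : ∀ w, w < d → (hwm p d (lp d fK) w).det ≠ 0 := by
    intro w hw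
    by_cases h2 : 2 ≤ w
    · rw [hlp]
      exact hwm_det_map _ p d _ w (hord w h2 hw)
    · exact hwm_small p d _ w (by omega)
  have hdK : (d : K) ≠ 0 := by
    intro h
    have h1 := (CharP.cast_eq_zero_iff K p d).1 h
    have := Nat.le_of_dvd (by omega) h1
    omega
  have hsm := smooth d hd hdK fK hdegK h0K hsepK
  have hfrob : ∀ s : ℕ, ∀ e, MvPolynomial.coeff e fK ^ (p ^ ((m + 1) * s)) =
      MvPolynomial.coeff e fK := by
    intro s e
    rw [hfK, MvPolynomial.coeff_map, ← map_pow, pow_mul, ← hm, Nat.card_eq_fintype_card,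
      FiniteField.pow_card_pow]
  have hfm : ∀ e, MvPolynomial.coeff e fK ^ (p ^ (m + 1)) = MvPolynomial.coeff e fK := by
    intro e
    have := hfrob 1 e
    rwa [mul_one] at this
  -- the ring
  have hdom : IsDomain (Constr.RR p (d * (p - 1)) K) :=
    Constr.RR_domain p _ K (Nat.mul_pos (by omega) (by omega))
  let S := Constr.setup p K d (by omega) hdom
  -- the cyclotomic field
  have hζ0 : IsPrimitiveRoot (IsCyclotomicExtension.zeta p ℚ F) p :=
    IsCyclotomicExtension.zeta_spec p ℚ F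
  set ζ := IsCyclotomicExtension.zeta p ℚ F with hζdef
  have hFch : CharZero F := charZero_of_injective_algebraMap (algebraMap ℚ F).injective
  obtain ⟨σ⟩ : Nonempty (F →+* ℂ) := by
    have : FiniteDimensional ℚ F := IsCyclotomicExtension.finiteDimensional {p} ℚ F
    have : Algebra.IsAlgebraic ℚ F := inferInstance
    exact ⟨((IsAlgClosed.lift : F →ₐ[ℚ] ℂ) : F →+* ℂ)⟩
  set n := (d - 1) ^ 2 with hn
  set μ := (prodn (ct p (lp d fK) (d - 1)) (m + 1)).charpoly.rootMultiplicity 1 with hμ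
  have hμle : μ + 1 ≤ Multiset.card (UniqueFactorizationMonoid.factors (lp d f)) := by
    have h1 := mult_factors (p := p) hm (algebraMap k K) (lp d f) hsep (d - 1) (by
      have h2 : (lp d f).natDegree ≤ d := by
        rw [natDegree_le_iff_coeff_eq_zero]
        intro a ha
        exact coeff_lp_high d f a ha
      have h3 := le_natDegree_of_ne_zero hdeg
      omega) (by omega)
    rw [← hlp, UniqueFactorizationMonoid.normalizedFactors, Multiset.card_map] at h1
    exact h1
  let Se : ℕ → ℕ → F := fun j s => expSum p fK ((m + 1) * s) (ζ ^ j)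
  let c : ℕ → ℕ → F := fun j => cseq (Se j)
  have hprim : ∀ j ∈ Finset.Ico 1 p, IsPrimitiveRoot (ζ ^ j) p := by
    intro j hj
    rw [Finset.mem_Ico] at hj
    exact hζ0.pow_of_coprime j (Nat.coprime_of_lt_prime (by omega) hj.2 hp.out).symm
  have htr : ∀ j ∈ Finset.Ico 1 p, (∀ r, n < r → c j r = 0) ∧
      Tk (c j) n ((p : F) ^ (m + 1)) μ ≠ 0 := by
    intro j hj
    exact S0.trans S hd hpd hdp fK (totalDegree_eq d fK hfKdeg hdegK) hsm hordK m hfm (ζ ^ j)
      (hprim j hj) (c j) (cseq_zero _) (cseq_succ (Se j))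
  let cC : ℕ → ℕ → ℂ := fun j r => σ (c j r)
  have hcC0 : ∀ j, cC j 0 = 1 := by
    intro j
    change σ (cseq (Se j) 0) = 1
    rw [cseq_zero, map_one]
  have hcC : ∀ j, ∀ r, ((r + 1 : ℕ) : ℂ) * cC j (r + 1) =
      -∑ l ∈ Finset.range (r + 1), σ (Se j (l + 1)) * cC j (r - l) := by
    intro j r
    have h1 := congrArg σ (cseq_succ (Se j) r)
    rw [map_mul, map_natCast, map_neg, map_sum] at h1
    rw [h1]
    congr 1
    exact Finset.sum_congr rfl fun l _ => map_mul _ _ _
  let Γj : ℕ → Multiset ℂ := fun j => (PP (cC j) n).roots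
  have hcard : ∀ j, (Γj j).card = n := by
    intro j
    have h1 := PP_monic (cC j) n (hcC0 j)
    exact (IsAlgClosed.splits (PP (cC j) n)).natDegree_eq_card_roots.symm.trans h1.2
  have hsum : ∀ j ∈ Finset.Ico 1 p, ∀ s, 1 ≤ s →
      ((Γj j).map (fun x => x ^ s)).sum = σ (Se j s) := by
    intro j hj s hs
    obtain ⟨s', rfl⟩ := Nat.exists_eq_add_of_le' hs
    exact roots_powerSum (fun s => σ (Se j s)) (cC j) n (hcC0 j) (hcC j) (by
      intro r hr
      change σ (c j r) = 0
      rw [(htr j hj).1 r hr, map_zero]) s'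
  have hcount : ∀ j ∈ Finset.Ico 1 p, (Γj j).count (Nat.card k : ℂ) ≤ μ := by
    intro j hj
    refine count_le_of_Tk (cC j) n (hcC0 j) _ μ ?_
    have h1 : Tk (cC j) n (Nat.card k : ℂ) μ = σ (Tk (c j) n ((p : F) ^ (m + 1)) μ) := by
      rw [Tk, Tk, map_sum, hm]
      refine Finset.sum_congr rfl fun r _ => ?_
      rw [map_mul, map_mul, map_pow, map_pow, map_natCast, map_natCast, Nat.cast_pow]
    rw [h1]
    exact (_root_.map_ne_zero σ).2 (htr j hj).2
  refine ⟨∑ j ∈ Finset.Ico 1 p, Γj j, ?_, ?_, ?_⟩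
  · have h1 : Multiset.card (∑ j ∈ Finset.Ico 1 p, Γj j) =
        ∑ j ∈ Finset.Ico 1 p, Multiset.card (Γj j) :=
      map_sum (Multiset.cardHom : Multiset ℂ →+ ℕ) _ _
    rw [h1, Finset.sum_congr rfl (fun j _ => hcard j), Finset.sum_const, Nat.card_Ico,
      smul_eq_mul]
  · intro L _ _ _
    have hfin : Module.Finite k L := inferInstance
    set s := Module.finrank k L with hs
    have hs1 : 1 ≤ s := Module.finrank_pos
    have hLcard : Nat.card L = p ^ ((m + 1) * s) := by
      rw [Module.natCard_eq_pow_finrank (K := k), hm, pow_mul]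
    have h1 := card_transfer (p := p) (K := K) f L ((m + 1) * s) hLcard
      (IsAlgClosed.lift : L →ₐ[k] K)
    rw [h1, card_fibres, points_expSum fK ((m + 1) * s) (Nat.mul_pos (by omega) hs1) (hfrob s)
      (σ ζ) (hζ0.map_of_injective σ.injective), ← hLcard]
    congr 1
    have h2 : Multiset.map (fun γ => γ ^ s) (∑ j ∈ Finset.Ico 1 p, Γj j) =
        ∑ j ∈ Finset.Ico 1 p, Multiset.map (fun γ => γ ^ s) (Γj j) :=
      map_sum (Multiset.mapAddMonoidHom (fun γ : ℂ => γ ^ s)) _ _
    have h3 : (∑ j ∈ Finset.Ico 1 p, Multiset.map (fun γ => γ ^ s) (Γj j)).sum =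
        ∑ j ∈ Finset.Ico 1 p, (Multiset.map (fun γ => γ ^ s) (Γj j)).sum :=
      map_sum (Multiset.sumAddMonoidHom : Multiset ℂ →+ ℂ) _ _
    rw [h2, h3]
    refine Finset.sum_congr rfl fun j hj => ?_
    rw [hsum j hj s hs1, map_expSum, map_pow]
  · rw [Multiset.count_sum']
    refine (Finset.sum_le_card_nsmul _ _ μ hcount).trans ?_
    rw [Nat.card_Ico, smul_eq_mul]
    exact Nat.mul_le_mul_left _ (by omega)

/-- **the spectrum and the multiplicity of `q`** -/
theorem main {k : Type} [Field k] [Finite k] (p : ℕ) [hp : Fact p.Prime] [CharP k p] (d : ℕ)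
    (hd : 2 ≤ d) (hdp : d ∣ p - 1) (hpd : 2 * d + 3 < p) (f : MvPolynomial (Fin 2) k)
    (hf : f.totalDegree ≤ d) (hdeg : (lp d f).coeff d ≠ 0) (h0 : (lp d f).coeff 0 ≠ 0)
    (hsep : (lp d f).Separable)
    (hord : ∀ w, 2 ≤ w → w < d → (hwm p d (lp d f) w).det ≠ 0) [DecidableEq ℂ] :
    ∃ Γ : Multiset ℂ, Γ.card = (p - 1) * (d - 1) ^ 2 ∧
      (∀ (L : Type) [Field L] [Finite L] [Algebra k L],
        (Nat.card {P : (Fin 2 → L) × L // P.2 ^ p - P.2 = MvPolynomial.aeval P.1 f} : ℂ) =
          (Nat.card L : ℂ) ^ 2 + (Γ.map (fun γ => γ ^ Module.finrank k L)).sum) ∧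
      Γ.count (Nat.card k : ℂ) ≤
        (p - 1) * (Multiset.card (UniqueFactorizationMonoid.factors (lp d f)) - 1) := by
  have : @IsCyclotomicExtension {p} ℚ (CyclotomicField p ℚ) _ _ (CyclotomicField.algebra p ℚ) := by
    infer_instance
  exact @main_aux p _ (CyclotomicField p ℚ) _ (CyclotomicField.algebra p ℚ) this k _ _ _ d hd hdp
    hpd f hf hdeg h0 hsep hord _

end Pool.Agent.H856.DW
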