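import Pool.Agent.H856.DW.Grow

set_option autoImplicit false
set_option linter.unusedSectionVars false
set_option linter.unusedVariables false

/-!
# The rows of the Frobenius matrices
-/

namespace Pool.Agent.H856.DW

open Pool.Agent.H425 MvPolynomial

namespace S0

variable {p d : ℕ} [hp : Fact p.Prime] {K R : Type} [Field K] [CommRing R] [IsDomain R]
  {S : Setup p d K R} {ι : Type} [Fintype ι] [DecidableEq ι]
  {N : ℕ} {f : MvPolynomial ι K} {e : ℕ} {b : (ι → Fin e) → (ι →₀ ℕ)}

theorem EE_emb (D : S.BD N f e b) (t : ℕ) (u : ι → Fin e) (r : S.Q N) :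
    Setup.EE D t (monomial (emb u) r) = monomial (b u) r := by
  rw [Setup.EE_apply]
  exact Phi_small _ e D.he b u r

theorem EE_symm_b (D : S.BD N f e b) (t : ℕ) (u : ι → Fin e) (r : S.Q N) :
    (Setup.EE D t).symm (monomial (b u) r) = monomial (emb u) r := by
  rw [LinearEquiv.symm_apply_eq, EE_emb]

theorem b_surj (D : S.BD N f e b) (v : ι →₀ ℕ) (hv : v.degree < e) : ∃ u : ι → Fin e, b u = v := by
  obtain ⟨a, c, h1, h2, h3⟩ := (D.hY 0).hspan v.degree (monomial v 1)
    (isHomogeneous_monomial _ rfl)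
  have h4 : ∑ i, a i * MvPolynomial.map (S.rho N D.hN)
      (pderiv i (S.Hh N (Setup.su f) (S.tc f 0))) = 0 :=
    Finset.sum_eq_zero fun i _ => by rw [h2 i hv, zero_mul]
  rw [h4, zero_add] at h3
  by_contra hcon
  push Not at hcon
  have h5 := congrArg (coeff v) h3
  rw [coeff_monomial, if_pos rfl, coeff_sum, Finset.sum_eq_zero] at h5
  · exact one_ne_zero h5
  · intro u _
    rw [coeff_monomial, if_neg (hcon u)]

theorem b_inj [Nontrivial (S.Q N)] (D : S.BD N f e b) : Function.Injective b := by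
  intro u u' h
  have h1 : Setup.EE D 0 (monomial (emb u) 1) = Setup.EE D 0 (monomial (emb u') 1) := by
    rw [EE_emb, EE_emb, h]
  have h2 := (Setup.EE D 0).injective h1
  have h3 := congrArg (coeff (emb u)) h2
  rw [coeff_monomial, if_pos rfl, coeff_monomial] at h3
  by_contra hne
  rw [if_neg (fun h' => hne (emb_injective h').symm)] at h3
  exact one_ne_zero h3

theorem degree_emb (u : ι → Fin e) : (emb u).degree = ∑ i, (u i : ℕ) := by
  rw [Finsupp.degree_eq_sum]
  rfl

theorem nontrivial_Q (hN : 1 ≤ N) : Nontrivial (S.Q N) := by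
  refine ⟨⟨0, 1, fun h => ?_⟩⟩
  have h1 : S.rho N hN 0 = S.rho N hN 1 := by rw [h]
  rw [map_zero, map_one] at h1
  exact zero_ne_one h1

/-- the coefficients of the inverse of the adapted basis in small degrees -/
theorem row_approx (D : S.BD N f e b) (t : ℕ) (u' : ι → Fin e) (hu : ∑ i, (u' i : ℕ) < e) (c : ℕ)
    (Z : MvPolynomial ι (S.Q N))
    (hZ : ∀ v : ι →₀ ℕ, ∑ i, (u' i : ℕ) < v.degree → (S.rd N S.lam) ^ c ∣ coeff v Z) :
    (S.rd N S.lam) ^ c ∣ coeff (emb u') ((Setup.EE D t).symm Z) - coeff (b u') Z := by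
  have hnt : Nontrivial (S.Q N) := nontrivial_Q D.hN
  set j := ∑ i, (u' i : ℕ) with hj
  obtain ⟨M0, hM0⟩ := exists_VV Z
  have hM := VV_mono (Nat.le_max_left M0 j) hM0
  set M := max M0 j with hMdef
  have hbdeg : (b u').degree = j := (D.hY 0).hb u'
  have h1 : coeff (emb u') ((Setup.EE D t).symm Z) =
      ∑ v ∈ DD ι M, coeff v Z * coeff (emb u') ((Setup.EE D t).symm (monomial v 1)) := by
    conv_lhs => rw [eq_sum_DD hM]
    rw [map_sum, coeff_sum]
    refine Finset.sum_congr rfl fun v _ => ?_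
    have : monomial v (coeff v Z) = coeff v Z • monomial v (1 : S.Q N) := by
      rw [smul_monomial, smul_eq_mul, mul_one]
    rw [this, map_smul, coeff_smul, smul_eq_mul]
  have hmem : b u' ∈ DD ι M := by
    rw [mem_DD, hbdeg]
    exact Nat.le_max_right _ _
  rw [h1, ← Finset.add_sum_erase _ _ hmem, EE_symm_b, coeff_monomial, if_pos rfl, mul_one,
    add_sub_cancel_left]
  refine Finset.dvd_sum fun v hv => ?_
  rw [Finset.mem_erase] at hv
  rcases lt_trichotomy v.degree j with h | h | h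
  · have h2 := Setup.EE_symm_mem D t (monomial_mem_VV (le_refl v.degree) (1 : S.Q N))
    rw [h2 (emb u') (by rw [degree_emb]; exact h), mul_zero]
    exact dvd_zero _
  · obtain ⟨u, hu2⟩ := b_surj D v (by omega)
    rw [← hu2, EE_symm_b, coeff_monomial, if_neg, mul_zero]
    · exact dvd_zero _
    · intro h3
      apply hv.1
      rw [← hu2, emb_injective h3]
  · exact Dvd.dvd.mul_right (hZ v h) _

/-- the constant factor is congruent to one -/
theorem kap_res (hp5 : 5 ≤ p) (hd : 1 ≤ d) (N : ℕ) (f : MvPolynomial ι K) (t : ℕ) :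
    ∃ k : R, S.kap N f t = S.rd N k ∧ S.res k = 1 := by
  refine ⟨S.thR (3 * N + 2) (S.tc f t 0), ?_, ?_⟩
  · rw [Setup.kap, S.eval_thp (by omega) hd N (3 * N + 2) (by omega)]
  · obtain ⟨v, hv⟩ := S.thR_first hp5 hd (3 * N + 2) (by omega) (S.tc f t 0)
    have h1 : S.thR (3 * N + 2) (S.tc f t 0) =
        1 + S.pi * S.tc f t 0 + S.lam ^ (2 * d) * v := by linear_combination hv
    rw [h1, map_add, map_add, map_mul, map_mul, Setup.pi, map_pow, map_pow, S.res_lam,
      zero_pow (by omega), zero_pow (by omega), zero_mul, zero_mul, map_one, add_zero, add_zero]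

/-- the Hasse-Witt entries -/
noncomputable def hw (S : Setup p d K R) (f : MvPolynomial ι K) (t : ℕ) (V U : ι →₀ ℕ) : K :=
  open Classical in if U ≤ p • V then
    lead d (topForm d (Setup.su f) (fun s => S.res (S.tc f t s))) (p • V - U) else 0

/-- leading terms of the kernel -/
theorem ker_lead [CharP K p] (hd : 0 < d) (hpd : 2 * d + 3 < p) (f : MvPolynomial ι K)
    (hf : f.totalDegree ≤ d) (t : ℕ) (V U : ι →₀ ℕ) (hV : V.degree ≤ d) (hU : U ≠ 0) :
    ∃ z : R, S.ker (Setup.su f) (S.tc f t) V U = S.lam ^ ((p - 1) * V.degree) * z ∧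
      S.res z = hw S f t V U := by
  classical
  have hp1 := hp.out.pos
  by_cases h : U ≤ p • V
  · have hspec := (S.ker_spec (by omega) (Setup.su f) (S.tc f t) (Setup.su_zero _)
      (Setup.su_degree _ hf) V U).2
    rw [Setup.Gk, if_pos h] at hspec
    have hdeg : (p • V - U).degree + U.degree = p * V.degree := by
      rw [← map_add, tsub_add_cancel_of_le h, map_nsmul, smul_eq_mul]
    have hU' := Setup.degree_pos hU
    obtain ⟨z, hz1, hz2⟩ := Ld_FF S hd hpd (Setup.su f) (S.tc f t) (Setup.su_zero _)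
      (Setup.su_degree _ hf) (p • V - U) (by
        have : p * V.degree ≤ p * d := Nat.mul_le_mul_left _ hV
        omega)
    refine ⟨z, ?_, ?_⟩
    · rw [hz1] at hspec
      apply mul_left_cancel₀ (pow_ne_zero V.degree S.lam_ne)
      rw [hspec, ← mul_assoc, ← mul_assoc, ← pow_add, ← pow_add]
      congr 2
      have h2 : (p - 1) * V.degree + V.degree = p * V.degree := by
        calc (p - 1) * V.degree + V.degree = (p - 1 + 1) * V.degree := by ring
          _ = _ := by rw [Nat.sub_add_cancel hp1]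
      omega
    · rw [hz2, hw, if_pos h]
  · refine ⟨0, ?_, ?_⟩
    · rw [S.ker_eq_zero (by omega) (Setup.su f) (S.tc f t) (Setup.su_zero _)
        (Setup.su_degree _ hf) V U h, mul_zero]
    · rw [map_zero, hw, if_neg h]

theorem high_dvd (hd : 1 ≤ d) (hpd : 2 * d + 3 < p) {w : ℕ} (hw : d < w) :
    (p - 1) * d + 1 ≤ (p - 3) * w := by
  obtain ⟨q, rfl⟩ : ∃ q, p = q + 3 := ⟨p - 3, by omega⟩
  have h1 : q + 3 - 3 = q := by omega
  have h2 : q + 3 - 1 = q + 2 := by omega
  rw [h1, h2]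
  have h3 : q * (d + 1) ≤ q * w := Nat.mul_le_mul_left _ hw
  nlinarith

/-- **the rows of the Frobenius matrices up to the middle level** -/
theorem Bt_low [CharP K p] (D : S.BD N f e b) (hn : 2 ≤ Fintype.card ι) (hpd : 2 * d + 3 < p)
    (t : ℕ) (u' u : ι → Fin e) (hu' : ∑ i, (u' i : ℕ) + Fintype.card ι ≤ d) :
    ∃ z : R, Setup.Bt D t u' u =
        S.rd N (S.lam ^ ((p - 1) * (∑ i, (u' i : ℕ) + Fintype.card ι)) * z) ∧
      S.res z = hw S f t (b u' + oneA Finset.univ) (b u + oneA Finset.univ) := by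
  classical
  have hde := D.hde
  have hp5 := D.hp5
  have hd1 : 1 ≤ d := by omega
  set w := ∑ i, (u' i : ℕ) + Fintype.card ι with hwdef
  set Z := S.alt N f Finset.univ t (monomial (b u) 1) with hZ
  have hcoeff : ∀ v, coeff v Z = S.kap N f t *
      S.kb N (Setup.su f) (S.tc f t) (v + oneA Finset.univ) (b u + oneA Finset.univ) := by
    intro v
    rw [hZ, S.coeff_alt (by omega) N f D.hf, mul_one]
  have hone : (b u + oneA (Finset.univ : Finset ι)) ≠ 0 := by
    intro h
    have h1 := congrArg Finsupp.degree h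
    rw [map_add, degree_oneA, Finset.card_univ, map_zero] at h1
    omega
  have hdeg1 : ∀ v : ι →₀ ℕ, (v + oneA (Finset.univ : Finset ι)).degree =
      v.degree + Fintype.card ι := by
    intro v
    rw [map_add, degree_oneA, Finset.card_univ]
  have hdvd : ∀ v : ι →₀ ℕ, ∑ i, (u' i : ℕ) < v.degree →
      (S.rd N S.lam) ^ ((p - 1) * w + 1) ∣ coeff v Z := by
    intro v hv
    rw [hcoeff]
    refine Dvd.dvd.mul_left ?_ _
    rw [Setup.kb, ← map_pow]
    refine map_dvd (S.rd N) ?_
    by_cases hvd : v.degree + Fintype.card ι ≤ d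
    · obtain ⟨z, hz, _⟩ := ker_lead (S := S) (by omega) hpd f D.hf t
        (v + oneA Finset.univ) (b u + oneA Finset.univ) (by rw [hdeg1]; exact hvd) hone
      rw [hz, hdeg1]
      refine Dvd.dvd.mul_right (pow_dvd_pow _ ?_) _
      have h1 : (p - 1) * (w + 1) ≤ (p - 1) * (v.degree + Fintype.card ι) :=
        Nat.mul_le_mul_left _ (by omega)
      rw [mul_add, mul_one] at h1
      omega
    · have h1 := (S.ker_spec (by omega) (Setup.su f) (S.tc f t) (Setup.su_zero f)
        (Setup.su_degree f D.hf) (v + oneA Finset.univ) (b u + oneA Finset.univ)).1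
      rw [hdeg1] at h1
      refine (pow_dvd_pow _ ?_).trans h1
      have h2 := high_dvd hd1 hpd (w := v.degree + Fintype.card ι) (by omega)
      have h3 : (p - 1) * w ≤ (p - 1) * d := Nat.mul_le_mul_left _ hu'
      omega
  obtain ⟨y, hy⟩ := row_approx D (t + 1) u' (by omega) ((p - 1) * w + 1) Z hdvd
  obtain ⟨y', rfl⟩ := Ideal.Quotient.mk_surjective y
  obtain ⟨k, hk1, hk2⟩ := kap_res (S := S) hp5 hd1 N f t
  have hbdeg : (b u').degree = ∑ i, (u' i : ℕ) := (D.hY 0).hb u'
  obtain ⟨z, hz1, hz2⟩ := ker_lead (S := S) (by omega) hpd f D.hf t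
    (b u' + oneA Finset.univ) (b u + oneA Finset.univ) (by rw [hdeg1, hbdeg]; exact hu') hone
  rw [hdeg1, hbdeg, ← hwdef] at hz1
  refine ⟨k * z + S.lam * y', ?_, ?_⟩
  · have h1 : Setup.Bt D t u' u = coeff (emb u') ((Setup.EE D (t + 1)).symm Z) := by
      rw [Setup.Bt, Setup.gop_apply, EE_emb]
    have h2 : coeff (b u') Z = S.rd N (k * (S.lam ^ ((p - 1) * w) * z)) := by
      rw [hcoeff, hk1, Setup.kb, hz1, ← map_mul]
    have h3 : coeff (emb u') ((Setup.EE D (t + 1)).symm Z) = coeff (b u') Z +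
        (S.rd N S.lam) ^ ((p - 1) * w + 1) * S.rd N y' := by
      rw [← sub_eq_iff_eq_add', ← hy]
    rw [h1, h3, h2, ← map_pow, ← map_mul, ← map_add]
    congr 1
    ring
  · rw [map_add, map_mul, map_mul, hk2, hz2, S.res_lam, zero_mul, add_zero, one_mul]

theorem Bt_high (D : S.BD N f e b) (hpd : 2 * d + 3 < p)
    (t : ℕ) (u' u : ι → Fin e) (hu' : d < ∑ i, (u' i : ℕ) + Fintype.card ι) :
    ∃ z : R, Setup.Bt D t u' u = S.rd N (S.lam ^ ((p - 1) * d) * z) ∧ S.res z = 0 := by
  have hde := D.hde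
  have h1 := Setup.Bt_dvd D t u' u
  obtain ⟨y, hy⟩ := (pow_dvd_pow (S.rd N S.lam) (high_dvd (by omega) hpd hu')).trans h1
  obtain ⟨y', rfl⟩ := Ideal.Quotient.mk_surjective y
  refine ⟨S.lam * y', ?_, ?_⟩
  · rw [hy, ← map_pow, ← map_mul]
    congr 1
    ring
  · rw [map_mul, S.res_lam, zero_mul]

end S0

end Pool.Agent.H856.DW
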