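import Pool.Agent.H856.DW.Cyc
import Pool.Agent.H856.DW.Row

set_option autoImplicit false
set_option linter.unusedSectionVars false
set_option linter.unusedVariables false

/-!
# The leading term of the characteristic polynomial at the middle slope
-/

namespace Pool.Agent.H856.DW

open Pool.Agent.H425 Polynomial

variable {p d : ℕ} [hp : Fact p.Prime] {K R : Type} [Field K] [CommRing R] [IsDomain R]
  (S : Setup p d K R) {I : Type} [Fintype I] [DecidableEq I]

/-- the scaled matrices -/
def scl (lev : I → ℕ) (z : ℕ → Matrix I I R) (t : ℕ) : Matrix I I R :=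
  fun i j => S.lam ^ ((p - 1) * min (lev i) d) * z t i j

/-- the diagonal after scaling -/
noncomputable def dl (lev : I → ℕ) (t : ℕ) (i : I) : R[X] :=
  -C (S.lam ^ ((p - 1) * (d - min (lev i) d))) * (if t = 0 then X else 1)

theorem comp_det (M : Matrix I I R) (c : R) :
    M.charpoly.comp (C c * X) = ((C c * X) • (1 : Matrix I I R[X]) - M.map C).det := by
  rw [Matrix.charpoly]
  have h1 := RingHom.map_det (Polynomial.compRingHom (C c * X : R[X])) M.charmatrix
  rw [Polynomial.coe_compRingHom_apply] at h1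
  rw [h1]
  congr 1
  ext1 i j
  rw [RingHom.mapMatrix_apply, Matrix.map_apply, Polynomial.coe_compRingHom_apply,
    Matrix.charmatrix_apply, Matrix.sub_apply, Matrix.smul_apply, Matrix.map_apply,
    Matrix.one_apply, smul_eq_mul]
  by_cases h : i = j
  · subst h
    rw [Matrix.diagonal_apply_eq, if_pos rfl, mul_one, sub_comp, X_comp, C_comp]
  · rw [Matrix.diagonal_apply_ne _ h, if_neg h, mul_zero, sub_comp, zero_comp, C_comp]

theorem scaled_det (m : ℕ) (lev : I → ℕ) (z : ℕ → Matrix I I R) :
    (prodn (scl S lev z) (m + 1)).charpoly.comp (C ((p : R) ^ (m + 1)) * X) =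
      C (S.lam ^ (∑ x : Fin (m + 1) × I, (p - 1) * min (lev x.2) d)) *
        (cyc m (dl S lev) (fun t => (z t).map C)).det := by
  rw [comp_det]
  have h1 := cyc_det m (fun t => C (p : R) * (if t = 0 then X else 1))
    (fun t => (scl S lev z t).map (C : R →+* R[X]))
  have h2 : (∏ t ∈ Finset.range (m + 1), C (p : R) * (if t = 0 then X else 1)) =
      C ((p : R) ^ (m + 1)) * X := by
    rw [Finset.prod_mul_distrib, Finset.prod_const, Finset.card_range, ← C_pow]
    congr 1
    rw [Finset.prod_range_succ', Finset.prod_eq_one]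
    · rw [if_pos rfl, one_mul]
    · intro t _
      rw [if_neg (Nat.succ_ne_zero t)]
  have h3 : prodn (fun t => (scl S lev z t).map (C : R →+* R[X])) (m + 1) =
      (prodn (scl S lev z) (m + 1)).map C := prodn_map C _ _
  rw [h2, h3] at h1
  rw [← h1]
  have h4 : cyc m (fun t (_ : I) => C (p : R) * (if t = 0 then X else 1))
      (fun t => (scl S lev z t).map (C : R →+* R[X])) =
      Matrix.of fun x y => C (S.lam ^ ((p - 1) * min (lev x.2) d)) *
        (cyc m (dl S lev) (fun t => (z t).map C)) x y := by
    ext1 x y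
    rw [Matrix.of_apply, cyc, cyc, mul_sub]
    congr 1
    · by_cases hxy : x = y
      swap
      · rw [if_neg hxy, if_neg hxy, mul_zero]
      rw [if_pos hxy, if_pos hxy, dl]
      generalize (if (x.1 : ℕ) = 0 then (X : R[X]) else 1) = w
      have h5 : (p : R) = -S.lam ^ ((p - 1) * min (lev x.2) d) *
          S.lam ^ ((p - 1) * (d - min (lev x.2) d)) := by
        rw [neg_mul, ← pow_add, ← mul_add, Nat.add_sub_cancel' (min_le_right _ _), mul_comm,
          S.lam_pow, neg_neg]
      conv_lhs => rw [h5]
      rw [C_mul, C_neg]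
      ring
    · rw [mul_ite, mul_zero]
      congr 1
      rw [Matrix.map_apply, Matrix.map_apply, scl, C_mul]
  rw [h4, Matrix.det_mul_column, ← map_prod, Finset.prod_pow_eq_pow_sum]

theorem map_cyc_dl (m : ℕ) (lev : I → ℕ) (hp1 : 1 < p) (z : ℕ → Matrix I I R)
    (H : ℕ → Matrix I I K) (hz : ∀ t i j, S.res (z t i j) = H t i j) :
    ((cyc m (dl S lev) (fun t => (z t).map C)).det).map S.res =
      (cyc m (fun t i => (if lev i < d then 0 else -(if t = 0 then X else 1) : K[X]))
        (fun t => (H t).map C)).det := by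
  rw [← coe_mapRingHom, RingHom.map_det]
  congr 1
  ext1 x y
  rw [RingHom.mapMatrix_apply, Matrix.map_apply, cyc, cyc, map_sub, apply_ite (mapRingHom S.res),
    apply_ite (mapRingHom S.res), map_zero]
  congr 1
  · congr 1
    rw [dl, coe_mapRingHom, Polynomial.map_mul, Polynomial.map_neg, map_C, map_pow, S.res_lam]
    by_cases h : lev x.2 < d
    · rw [if_pos h, zero_pow]
      · simp
      · have h1 : min (lev x.2) d = lev x.2 := min_eq_left h.le
        rw [h1]
        exact Nat.mul_ne_zero (by omega) (by omega)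
    · rw [if_neg h, min_eq_right (not_lt.1 h), Nat.sub_self, mul_zero, pow_zero, C_1]
      split_ifs
      · rw [map_X]; ring
      · rw [Polynomial.map_one]; ring
  · congr 1
    rw [Matrix.map_apply, Matrix.map_apply, coe_mapRingHom, map_C, hz]

theorem prodn_zero_mat {A : Type} [CommRing A] (B : ℕ → Matrix I I A) (m : ℕ)
    (h : ∀ t, B t = 0) : prodn B (m + 1) = 0 := by
  rw [prodn, h, zero_mul]

theorem prodn_neg {A : Type} [CommRing A] (B : ℕ → Matrix I I A) (m : ℕ) :
    prodn (fun t => -B t) m = (-1 : A) ^ m • prodn B m := by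
  induction m with
  | zero => rw [pow_zero, one_smul]; rfl
  | succ m ih =>
    rw [prodn, prodn, ih, Matrix.mul_smul, neg_mul, pow_succ', smul_neg, neg_mul, one_mul, neg_smul]

theorem det_prodn {A : Type} [CommRing A] (B : ℕ → Matrix I I A) (m : ℕ) :
    (prodn B m).det = ∏ t ∈ Finset.range m, (B t).det := by
  induction m with
  | zero => rw [Finset.prod_range_zero]; exact Matrix.det_one
  | succ m ih => rw [prodn, Matrix.det_mul, ih, Finset.prod_range_succ, mul_comm]

theorem block_low (m : ℕ) (B : ℕ → Matrix I I K) (h : ∀ t, (B t).det ≠ 0) :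
    ∃ u : K, u ≠ 0 ∧ ((0 : K[X]) • (1 : Matrix I I K[X]) -
      prodn (fun t => (B t).map C) (m + 1)).det = C u := by
  refine ⟨(-prodn B (m + 1)).det, ?_, ?_⟩
  · rw [Matrix.det_neg, det_prodn]
    exact mul_ne_zero (pow_ne_zero _ (neg_ne_zero.2 one_ne_zero))
      (Finset.prod_ne_zero_iff.2 fun t _ => h t)
  · have h1 : prodn (fun t => (B t).map (C : K →+* K[X])) (m + 1) = (prodn B (m + 1)).map C :=
      prodn_map C B (m + 1)
    rw [zero_smul, zero_sub, h1, RingHom.map_det]
    congr 1
    ext1 i j
    rw [RingHom.mapMatrix_apply, Matrix.map_apply, Matrix.neg_apply, Matrix.map_apply,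
      Matrix.neg_apply, C_neg]

theorem block_mid (m : ℕ) (B : ℕ → Matrix I I K) :
    (((-1) ^ (m + 1) * X : K[X]) • (1 : Matrix I I K[X]) -
      prodn (fun t => (B t).map C) (m + 1)).det =
      C ((-1) ^ ((m + 1) * Fintype.card I)) * (prodn (fun t => -B t) (m + 1)).charpoly := by
  have h1 : prodn (fun t => (B t).map (C : K →+* K[X])) (m + 1) = (prodn B (m + 1)).map C :=
    prodn_map C B (m + 1)
  have h2 : ((-1) ^ (m + 1) * X : K[X]) • (1 : Matrix I I K[X]) - (prodn B (m + 1)).map C =
      ((-1) ^ (m + 1) : K[X]) • (prodn (fun t => -B t) (m + 1)).charmatrix := by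
    rw [prodn_neg]
    ext1 i j
    rw [Matrix.sub_apply, Matrix.smul_apply, Matrix.smul_apply, Matrix.map_apply,
      Matrix.charmatrix_apply, Matrix.smul_apply, smul_eq_mul, smul_eq_mul, smul_eq_mul,
      Matrix.one_apply, Matrix.diagonal_apply, C_mul, C_pow, C_neg, C_1, mul_sub, ← mul_assoc,
      ← mul_pow]
    simp only [mul_neg, mul_one, one_mul, neg_neg, one_pow, mul_ite, mul_zero]
  rw [h1, h2, Matrix.det_smul, Matrix.charpoly, C_pow, C_neg, C_1, pow_mul]

/-- **the leading term at the middle slope** -/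
theorem spec (hd : 0 < d) (m : ℕ) (lev : I → ℕ) (z : ℕ → Matrix I I R)
    (H : ℕ → Matrix I I K) (hz : ∀ t i j, S.res (z t i j) = H t i j)
    (hH : ∀ t i j, lev j < lev i → H t i j = 0) (hhigh : ∀ t i j, d < lev i → H t i j = 0)
    (hdet : ∀ k, k < d → ∀ t,
      ((H t).submatrix (Subtype.val : {i // lev i = k} → I) Subtype.val).det ≠ 0) :
    ∃ (G : R[X]) (u : K) (r : ℕ), u ≠ 0 ∧
      (prodn (scl S lev z) (m + 1)).charpoly.comp (C ((p : R) ^ (m + 1)) * X) =
        C (S.lam ^ (∑ x : Fin (m + 1) × I, (p - 1) * min (lev x.2) d)) * G ∧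
      G.map S.res = C u * X ^ r *
        (prodn (fun t => -(H t).submatrix (Subtype.val : {i // lev i = d} → I) Subtype.val)
          (m + 1)).charpoly := by
  have hp1 := hp.out.one_lt
  have h1 := map_cyc_dl S m lev hp1 z H hz
  have h2 := cyc_levels m lev (fun t k => (if k < d then 0 else -(if t = 0 then X else 1) : K[X]))
    (fun t => (H t).map C) (by
      intro t i j hij
      rw [Matrix.map_apply, hH t i j hij, C_0])
  rw [h2] at h1
  set P := (prodn (fun t => -(H t).submatrix (Subtype.val : {i // lev i = d} → I) Subtype.val)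
          (m + 1)).charpoly with hP
  have h3 : ∀ k, ∃ (u : K) (r : ℕ), u ≠ 0 ∧
      ((∏ t ∈ Finset.range (m + 1), (if k < d then 0 else -(if t = 0 then X else 1) : K[X])) •
        (1 : Matrix {i // lev i = k} {i // lev i = k} K[X]) -
        prodn (fun t => ((H t).map C).submatrix Subtype.val Subtype.val) (m + 1)).det =
      C u * X ^ r * (if k = d then P else 1) := by
    intro k
    have hpr : ¬ k < d → (∏ t ∈ Finset.range (m + 1),
        (if k < d then 0 else -(if t = 0 then X else 1) : K[X])) = (-1) ^ (m + 1) * X := by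
      intro hk
      have e1 : ∀ t ∈ Finset.range (m + 1), (if k < d then 0 else -(if t = 0 then X else 1) : K[X]) =
          (-1) * (if t = 0 then X else 1) := by
        intro t _
        rw [if_neg hk, neg_one_mul]
      rw [Finset.prod_congr rfl e1, Finset.prod_mul_distrib, Finset.prod_const, Finset.card_range]
      congr 1
      rw [Finset.prod_range_succ', Finset.prod_eq_one]
      · rw [if_pos rfl, one_mul]
      · intro t _
        rw [if_neg (Nat.succ_ne_zero t)]
    have hsub : (fun t => ((H t).map (C : K →+* K[X])).submatrix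
        (Subtype.val : {i // lev i = k} → I) (Subtype.val : {i // lev i = k} → I)) =
        fun t => ((H t).submatrix Subtype.val Subtype.val).map C := rfl
    rw [hsub]
    rcases lt_trichotomy k d with h | h | h
    · obtain ⟨u, hu, hu2⟩ := block_low m
        (fun t => (H t).submatrix (Subtype.val : {i // lev i = k} → I) Subtype.val) (hdet k h)
      refine ⟨u, 0, hu, ?_⟩
      have hz0 : (∏ t ∈ Finset.range (m + 1),
          (if k < d then 0 else -(if t = 0 then X else 1) : K[X])) = 0 := by
        rw [Finset.prod_range_succ, if_pos h, mul_zero]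
      rw [hz0, hu2, if_neg (by omega), pow_zero, mul_one, mul_one]
    · subst h
      refine ⟨(-1) ^ ((m + 1) * Fintype.card {i // lev i = k}), 0,
        pow_ne_zero _ (neg_ne_zero.2 one_ne_zero), ?_⟩
      rw [hpr (lt_irrefl _), block_mid, if_pos rfl, pow_zero, mul_one]
    · refine ⟨((-1) ^ (m + 1)) ^ Fintype.card {i // lev i = k}, Fintype.card {i // lev i = k},
        pow_ne_zero _ (pow_ne_zero _ (neg_ne_zero.2 one_ne_zero)), ?_⟩
      rw [hpr (by omega), prodn_zero_mat, sub_zero, Matrix.det_smul, Matrix.det_one, mul_one,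
        if_neg (by omega), mul_one, mul_pow, C_pow, C_pow, C_neg, C_1]
      intro t
      ext1 i j
      rw [Matrix.map_apply, Matrix.submatrix_apply, hhigh t i j (by rw [i.2]; exact h), C_0,
        Matrix.zero_apply]
  choose u r hu hF using h3
  refine ⟨_, ∏ k ∈ Finset.univ.image lev, u k, ∑ k ∈ Finset.univ.image lev, r k,
    Finset.prod_ne_zero_iff.2 fun k _ => hu k, scaled_det S m lev z, ?_⟩
  rw [h1, Finset.prod_congr rfl (fun k _ => hF k), Finset.prod_mul_distrib, Finset.prod_mul_distrib,
    ← map_prod, Finset.prod_pow_eq_pow_sum, Finset.prod_ite_eq']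
  congr 1
  split_ifs with h
  · rfl
  · have : IsEmpty {i // lev i = d} := ⟨fun i => h (Finset.mem_image.2 ⟨i.1, Finset.mem_univ _, i.2⟩)⟩
    rw [hP, Matrix.charpoly, Matrix.det_isEmpty]

end Pool.Agent.H856.DW
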